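import Pool.Agent.AKG.LinkB

set_option autoImplicit false

/-!
# Acute triples in nearly optimal sets
-/

namespace Pool.Agent.AKG

open Finset Classical Pool.Agent.MP_0af329_co Pool.Agent.AK Pool.Agent.AKO Pool.Agent.AKU

theorem noRight_dt' {S : Finset Pt} (h : NoRight S) (v p q : S) (h1 : v ≠ p) (h2 : p ≠ q)
    (h3 : v ≠ q) : dt (X S) (Y S) v p q ≠ 0 := by
  intro h0
  rw [dt_eq_inner] at h0
  refine h p.1 p.2 v.1 v.2 q.1 q.2 (fun e => h1 (Subtype.ext e.symm))
    (fun e => h3 (Subtype.ext e)) (fun e => h2 (Subtype.ext e)) ?_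
  rw [EuclideanGeometry.angle, vsub_eq_sub, vsub_eq_sub,
    ← InnerProductGeometry.inner_eq_zero_iff_angle_eq_pi_div_two]
  exact h0

theorem gn_of {S : Finset Pt} (hg : GenPos S) (hn : NoRight S) : GN (X S) (Y S) where
  gen := fun v p q h1 h2 h3 => AK.gen S hg v p q h1 h2 h3
  nor := fun v p q h1 h2 h3 => noRight_dt' hn v p q h1 h2 h3

theorem Nf_na {S : Finset Pt} {u v w : S} (h1 : u ≠ v) (h2 : v ≠ w) (h3 : u ≠ w) :
    Nf S u v w = (na (st (X S) (Y S) u v w) : ℝ) := by
  rw [na_st']
  unfold Nf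
  have : (u ≠ v ∧ v ≠ w ∧ u ≠ w ∧ NA (X S) (Y S) u v w) ↔ NAc (X S) (Y S) u v w := by
    constructor
    · rintro ⟨-, -, -, h⟩
      exact h
    · intro h
      exact ⟨h1, h2, h3, h⟩
  simp only [this]

theorem typesOk_of {tcs : List ℕ} (h : ((List.range 512).all fun t =>
    !(TAB.testBit (2048 + t)) || tcs.contains t) = true) : TypesOk tcs := by
  intro t ht h1
  have h2 := List.all_eq_true.1 h t (List.mem_range.2 ht)
  rw [h1] at h2
  simpa using h2

theorem invW_of {w : ℕ → ℤ} (h : ((List.range 4096).all fun k =>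
    !(TAB.testBit k) || (decide (w (cs12 k) = w k) && decide (w (cs23 k) = w k))) = true) :
    InvW w := by
  intro t ht h1
  have h2 := List.all_eq_true.1 h t (List.mem_range.2 ht)
  rw [h1] at h2
  simpa using h2

/-- a nearly optimal set contains an acute triangle -/
theorem exists_acT {S : Finset Pt} {η : ℝ} (hS : Near S η) (hη : η ≤ 1 / 10)
    (hn : 20 ≤ Fintype.card S) (hlt : 3 * dens (Set.Ici (Real.pi / 2)) ≤ 4 / 9) :
    ∃ r : Fin 3 → S, AcT (X S) (Y S) r := by
  by_contra hcon
  push Not at hcon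
  have hne : Nonempty S := Fintype.card_pos_iff.1 (by omega)
  obtain ⟨v⟩ := hne
  have h1 : ∀ p q : S, (1 : ℝ) ≤ Nf S v p q + ((if v = p then 1 else 0) +
      (if p = q then 1 else 0) + (if v = q then 1 else 0)) := by
    intro p q
    by_cases a1 : v = p
    · rw [if_pos a1]
      have b1 : (0 : ℝ) ≤ if p = q then 1 else 0 := by split_ifs <;> norm_num
      have b2 : (0 : ℝ) ≤ if v = q then 1 else 0 := by split_ifs <;> norm_num
      have b3 : (0 : ℝ) ≤ Nf S v p q := by unfold Nf; split_ifs <;> norm_num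
      linarith
    · by_cases a2 : p = q
      · rw [if_neg a1, if_pos a2]
        have b2 : (0 : ℝ) ≤ if v = q then 1 else 0 := by split_ifs <;> norm_num
        have b3 : (0 : ℝ) ≤ Nf S v p q := by unfold Nf; split_ifs <;> norm_num
        linarith
      · by_cases a3 : v = q
        · rw [if_neg a1, if_neg a2, if_pos a3]
          have b3 : (0 : ℝ) ≤ Nf S v p q := by unfold Nf; split_ifs <;> norm_num
          linarith
        · rw [if_neg a1, if_neg a2, if_neg a3, Nf_na a1 a2 a3]
          have b4 := hcon ![v, p, q]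
          have b5 : st (X S) (Y S) v p q % 4 ≠ 0 := by
            intro b6
            exact b4 ⟨(inj_iff _).2 ⟨a1, a3, a2⟩, b6⟩
          unfold na
          rw [if_neg b5]
          norm_num
  have h2 := sum_le_sum fun p (_ : p ∈ (univ : Finset S)) =>
    sum_le_sum fun q (_ : q ∈ (univ : Finset S)) => h1 p q
  set n : ℝ := (Fintype.card S : ℝ) with hnn
  have e1 : ∑ p : S, ∑ q : S, (1 : ℝ) = n ^ 2 := by
    simp only [sum_const, card_univ, nsmul_eq_mul, mul_one]
    rw [← hnn]
    ring
  have e2 : ∑ p : S, ∑ q : S, (Nf S v p q + ((if v = p then (1 : ℝ) else 0) +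
      (if p = q then 1 else 0) + (if v = q then 1 else 0))) =
      ∑ p, ∑ q, Nf S v p q + 3 * n := by
    simp only [sum_add_distrib, sum_ite_eq, mem_univ, if_true, sum_const, card_univ,
      nsmul_eq_mul, mul_one]
    have : ∑ x : S, ∑ _y : S, (if v = x then (1 : ℝ) else 0) = n := by
      simp only [sum_const, card_univ, nsmul_eq_mul]
      rw [← mul_sum, sum_ite_eq, if_pos (mem_univ _), ← hnn, mul_one]
    simp only [sum_const, card_univ, nsmul_eq_mul] at this
    rw [this, ← hnn]
    ring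
  rw [e1, e2] at h2
  have h3 := (abs_le.1 (hS.deg v)).2
  have hn20 : (20 : ℝ) ≤ n := by
    rw [hnn]
    exact_mod_cast hn
  nlinarith

/-- a nearly optimal set has a maximal acute triple, for every functional -/
theorem exists_maxT_near {S : Finset Pt} {η : ℝ} (hS : Near S η) (hη : η ≤ 1 / 10)
    (hn : 20 ≤ Fintype.card S) (hlt : 3 * dens (Set.Ici (Real.pi / 2)) ≤ 4 / 9)
    {w : ℕ → ℤ} (hw : InvW w) : ∃ r, MaxT (X S) (Y S) w r :=
  exists_maxT (gn_of hS.gen hS.nr) hw (exists_acT hS hη hn hlt)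

end Pool.Agent.AKG
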