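import Pool.Agent.AKG.Code4

set_option autoImplicit false

/-!
# Antipodal roots: extreme points in opposite directions

`IsMx α β v`: the point `v` is extreme in the direction `(α, β)`.
-/

namespace Pool.Agent.AKG

open Pool.Agent.AK

variable {ι : Type*} (x y : ι → ℝ)

/-- `v` is an extreme point in the direction `(α, β)` -/
def IsMx (α β : ℝ) (v : ι) : Prop := ∀ p, α * x p + β * y p ≤ α * x v + β * y v

/-- `v` and `w` are extreme points in opposite directions -/
def Anti (v w : ι) : Prop := ∃ α β : ℝ, (α ≠ 0 ∨ β ≠ 0) ∧ IsMx x y α β v ∧ IsMx x y (-α) (-β) w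

theorem Anti.symm {v w : ι} (h : Anti x y v w) : Anti x y w v := by
  obtain ⟨α, β, h0, h1, h2⟩ := h
  refine ⟨-α, -β, ?_, h2, ?_⟩
  · rcases h0 with h0 | h0
    · exact Or.inl (neg_ne_zero.2 h0)
    · exact Or.inr (neg_ne_zero.2 h0)
  · rwa [neg_neg, neg_neg]

theorem dir_eq (α β : ℝ) (p q v : ι) :
    dt x y p q q * (α * (x v - x p) + β * (y v - y p)) =
      (α * (x q - x p) + β * (y q - y p)) * dt x y p q v +
      (β * (x q - x p) - α * (y q - y p)) * cr x y p q v := by
  unfold dt cr; ring

/-- a point of the open slab of `p q`, on the left of `p q`, which is extreme in the direction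
`(α, β)`: this direction points to the left -/
theorem left_of_mx {α β : ℝ} (h0 : α ≠ 0 ∨ β ≠ 0) {p q v : ι} (hm : IsMx x y α β v)
    (hp : 0 < dt x y p q v) (hq : 0 < dt x y q p v) (hc : 0 < cr x y p q v) :
    0 < β * (x q - x p) - α * (y q - y p) := by
  have hqq : 0 < dt x y p q q := by
    have h1 : dt x y p q v + dt x y q p v = dt x y p q q := by unfold dt; ring
    linarith
  have e1 := dir_eq x y α β p q v
  have m1 := hm p
  have m2 := hm q
  have e2 : dt x y p q q * (α * (x v - x q) + β * (y v - y q)) =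
      (α * (x q - x p) + β * (y q - y p)) * (dt x y p q v - dt x y p q q) +
      (β * (x q - x p) - α * (y q - y p)) * cr x y p q v := by
    unfold dt cr; ring
  have e3 : dt x y p q v - dt x y p q q = - dt x y q p v := by unfold dt; ring
  rw [e3] at e2
  set s := α * (x q - x p) + β * (y q - y p) with hs
  set t := β * (x q - x p) - α * (y q - y p) with ht
  have f1 : 0 ≤ s * dt x y p q v + t * cr x y p q v := by
    rw [← e1]
    apply mul_nonneg hqq.le
    linarith
  have f2 : 0 ≤ s * (- dt x y q p v) + t * cr x y p q v := by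
    rw [← e2]
    apply mul_nonneg hqq.le
    linarith
  by_contra hcon
  push Not at hcon
  have g1 : t * cr x y p q v ≤ 0 := mul_nonpos_of_nonpos_of_nonneg hcon hc.le
  have g2 : 0 ≤ s * dt x y p q v := by linarith
  have g3 : 0 ≤ s := by
    by_contra hs'
    push Not at hs'
    have := mul_neg_of_neg_of_pos hs' hp
    linarith
  have g4 : s * dt x y q p v ≤ 0 := by linarith
  have g5 : s ≤ 0 := by
    by_contra hs'
    push Not at hs'
    have := mul_pos hs' hq
    linarith
  have g6 : s = 0 := le_antisymm g5 g3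
  have g7 : t = 0 := by
    rw [g6, zero_mul, zero_add] at f1
    apply le_antisymm hcon
    by_contra ht'
    push Not at ht'
    have := mul_neg_of_neg_of_pos ht' hc
    linarith
  have k : (α ^ 2 + β ^ 2) * dt x y p q q = s ^ 2 + t ^ 2 := by
    rw [hs, ht]; unfold dt; ring
  rw [g6, g7] at k
  have k1 : 0 < α ^ 2 + β ^ 2 := by
    rcases h0 with h0 | h0
    · have := sq_nonneg β
      have := sq_pos_of_ne_zero h0
      linarith
    · have := sq_nonneg α
      have := sq_pos_of_ne_zero h0
      linarith
  have k2 := mul_pos k1 hqq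
  rw [k] at k2
  norm_num at k2

/-- **The light rule.** Two antipodal points in the open slab of `p q` are on different sides of
the line `p q`. -/
theorem Anti.sep {v w : ι} (h : Anti x y v w) {p q : ι}
    (hv1 : 0 < dt x y p q v) (hv2 : 0 < dt x y q p v)
    (hw1 : 0 < dt x y p q w) (hw2 : 0 < dt x y q p w) :
    ¬ (0 < cr x y p q v ∧ 0 < cr x y p q w) := by
  rintro ⟨c1, c2⟩
  obtain ⟨α, β, h0, h1, h2⟩ := h
  have k1 := left_of_mx x y h0 h1 hv1 hv2 c1
  have h0' : -α ≠ 0 ∨ -β ≠ 0 := by
    rcases h0 with h0 | h0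
    · exact Or.inl (neg_ne_zero.2 h0)
    · exact Or.inr (neg_ne_zero.2 h0)
  have k2 := left_of_mx x y h0' h2 hw1 hw2 c2
  linarith

/-- the light rule on the other side -/
theorem Anti.sep' {v w : ι} (h : Anti x y v w) {p q : ι}
    (hv1 : 0 < dt x y p q v) (hv2 : 0 < dt x y q p v)
    (hw1 : 0 < dt x y p q w) (hw2 : 0 < dt x y q p w) :
    ¬ (cr x y p q v < 0 ∧ cr x y p q w < 0) := by
  rintro ⟨c1, c2⟩
  refine h.sep x y (p := q) (q := p) hv2 hv1 hw2 hw1 ⟨?_, ?_⟩
  · have : cr x y q p v = - cr x y p q v := by unfold cr; ring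
    rw [this]; linarith
  · have : cr x y q p w = - cr x y p q w := by unfold cr; ring
    rw [this]; linarith

/-- every direction has one of the points `rt i` as an extreme point on one of its two sides -/
def Cov {R : Type*} (rt : R → ι) : Prop :=
  ∀ α β : ℝ, ∃ i, IsMx x y α β (rt i) ∨ IsMx x y (-α) (-β) (rt i)

/-- non-acute triangle -/
def NAc (a b c : ι) : Prop := dt x y a b c ≤ 0 ∨ dt x y b a c ≤ 0 ∨ dt x y c a b ≤ 0

/-- every pair is non-acute with one of the roots -/
theorem Cov.one {R : Type*} {rt : R → ι} (h : Cov x y rt) (p q : ι) :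
    ∃ i, NAc x y (rt i) p q := by
  obtain ⟨i, hi | hi⟩ := h (x q - x p) (y q - y p)
  · refine ⟨i, Or.inr (Or.inr ?_)⟩
    have h1 := hi q
    have e : dt x y q (rt i) p = - (((x q - x p) * x (rt i) + (y q - y p) * y (rt i)) -
      ((x q - x p) * x q + (y q - y p) * y q)) := by unfold dt; ring
    rw [e]
    linarith
  · refine ⟨i, Or.inr (Or.inl ?_)⟩
    have h1 := hi p
    have e : dt x y p (rt i) q = - ((-(x q - x p) * x (rt i) + -(y q - y p) * y (rt i)) -
      (-(x q - x p) * x p + -(y q - y p) * y p)) := by unfold dt; ring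
    rw [e]
    linarith

/-- an extreme point is not in the interior of a triangle -/
theorem not_inside {α β : ℝ} (h0 : α ≠ 0 ∨ β ≠ 0) {v p q r : ι} (hm : IsMx x y α β v) :
    ¬ (0 < cr x y v p q ∧ 0 < cr x y v q r ∧ 0 < cr x y v r p) := by
  rintro ⟨h1, h2, h3⟩
  have m1 := hm p
  have m2 := hm q
  have m3 := hm r
  have e : cr x y v q r * (α * (x p - x v) + β * (y p - y v)) +
      cr x y v r p * (α * (x q - x v) + β * (y q - y v)) +
      cr x y v p q * (α * (x r - x v) + β * (y r - y v)) = 0 := by
    unfold cr; ring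
  have a1 : cr x y v q r * (α * (x p - x v) + β * (y p - y v)) ≤ 0 :=
    mul_nonpos_of_nonneg_of_nonpos h2.le (by linarith)
  have a2 : cr x y v r p * (α * (x q - x v) + β * (y q - y v)) ≤ 0 :=
    mul_nonpos_of_nonneg_of_nonpos h3.le (by linarith)
  have a3 : cr x y v p q * (α * (x r - x v) + β * (y r - y v)) ≤ 0 :=
    mul_nonpos_of_nonneg_of_nonpos h1.le (by linarith)
  have b1 : α * (x p - x v) + β * (y p - y v) = 0 := by
    have : cr x y v q r * (α * (x p - x v) + β * (y p - y v)) = 0 := by linarith
    exact (mul_eq_zero.1 this).resolve_left h2.ne'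
  have b2 : α * (x q - x v) + β * (y q - y v) = 0 := by
    have : cr x y v r p * (α * (x q - x v) + β * (y q - y v)) = 0 := by linarith
    exact (mul_eq_zero.1 this).resolve_left h3.ne'
  have k1 : α * cr x y v p q = 0 := by
    have : α * cr x y v p q = (α * (x p - x v) + β * (y p - y v)) * (y q - y v) -
      (α * (x q - x v) + β * (y q - y v)) * (y p - y v) := by unfold cr; ring
    rw [this, b1, b2]; ring
  have k2 : β * cr x y v p q = 0 := by
    have : β * cr x y v p q = (α * (x q - x v) + β * (y q - y v)) * (x p - x v) -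
      (α * (x p - x v) + β * (y p - y v)) * (x q - x v) := by unfold cr; ring
    rw [this, b1, b2]; ring
  rcases h0 with h0 | h0
  · exact h0 ((mul_eq_zero.1 k1).resolve_right h1.ne')
  · exact h0 ((mul_eq_zero.1 k2).resolve_right h1.ne')

end Pool.Agent.AKG
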