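import Pool.Agent.AKG.Tab4

set_option autoImplicit false

/-!
# The code of four points in general position is in the table
-/

namespace Pool.Agent.AKG

open Pool.Agent.AK

variable {ι : Type*} (x y : ι → ℝ)

open Classical in
/-- the state of a triple -/
noncomputable def st (a b c : ι) : ℕ :=
  (if 0 < cr x y a b c then 4 else 0) +
    (if dt x y a b c ≤ 0 then 1 else if dt x y b a c ≤ 0 then 2 else
      if dt x y c a b ≤ 0 then 3 else 0)

theorem st_lt (a b c : ι) : st x y a b c < 8 := by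
  unfold st
  split_ifs <;> norm_num

theorem st_div (a b c : ι) : 4 ≤ st x y a b c ↔ 0 < cr x y a b c := by
  unfold st
  split_ifs <;> simp_all

theorem st_mod1 (a b c : ι) : st x y a b c % 4 = 1 ↔ dt x y a b c ≤ 0 := by
  unfold st
  split_ifs <;> simp_all

theorem dt_sum (a b c : ι) : dt x y a b c + dt x y b a c = dt x y a b b := by
  unfold dt; ring

theorem dt_selfp {v p q : ι} (h : cr x y v p q ≠ 0) : 0 < dt x y v p p := by
  have h1 : 0 ≤ dt x y v p p := by
    unfold dt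
    nlinarith [mul_self_nonneg (x p - x v), mul_self_nonneg (y p - y v)]
  rcases h1.lt_or_eq with h2 | h2
  · exact h2
  · exfalso
    have hx : x p - x v = 0 := by
      unfold dt at h2
      nlinarith [mul_self_nonneg (x p - x v), mul_self_nonneg (y p - y v)]
    have hy : y p - y v = 0 := by
      unfold dt at h2
      nlinarith [mul_self_nonneg (x p - x v), mul_self_nonneg (y p - y v)]
    apply h
    unfold cr
    rw [hx, hy]
    ring

theorem not_two {a b c : ι} (h : cr x y a b c ≠ 0) (h1 : dt x y a b c ≤ 0) :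
    0 < dt x y b a c := by
  have h2 := dt_selfp x y h
  have h3 := dt_sum x y a b c
  linarith

theorem st_mod2 {a b c : ι} (h : cr x y a b c ≠ 0) :
    st x y a b c % 4 = 2 ↔ dt x y b a c ≤ 0 := by
  unfold st
  have h1 := not_two x y h
  split_ifs with g1 g2 g3 g4 g5 g6 <;> simp_all

theorem st_mod3 {a b c : ι} (h : cr x y a b c ≠ 0) :
    st x y a b c % 4 = 3 ↔ dt x y c a b ≤ 0 := by
  unfold st
  have h0 : cr x y a c b ≠ 0 := by rw [cr_swap]; exact neg_ne_zero.2 h
  have h1 : dt x y a b c ≤ 0 → 0 < dt x y c a b := by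
    intro g
    have := not_two x y h0 (by rw [dt_comm]; exact g)
    exact this
  have h2 : cr x y b c a ≠ 0 := by rw [cr_rot]; exact h
  have h3 : dt x y b a c ≤ 0 → 0 < dt x y c a b := by
    intro g
    have := not_two x y h2 (by rw [dt_comm]; exact g)
    rw [dt_comm] at this
    exact this
  split_ifs with g1 g2 g3 g4 g5 g6 <;> simp_all

/-- the code of four points -/
noncomputable def code (a b c d : ι) : ℕ :=
  ((st x y a b c * 8 + st x y a b d) * 8 + st x y a c d) * 8 + st x y b c d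

theorem dig3 (a b c d : ι) : dig (code x y a b c d) 3 = st x y a b c := by
  have h1 := st_lt x y a b c
  have h2 := st_lt x y a b d
  have h3 := st_lt x y a c d
  have h4 := st_lt x y b c d
  show (code x y a b c d >>> 9) % 8 = _
  rw [Nat.shiftRight_eq_div_pow]
  unfold code
  omega

theorem dig2 (a b c d : ι) : dig (code x y a b c d) 2 = st x y a b d := by
  have h1 := st_lt x y a b c
  have h2 := st_lt x y a b d
  have h3 := st_lt x y a c d
  have h4 := st_lt x y b c d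
  show (code x y a b c d >>> 6) % 8 = _
  rw [Nat.shiftRight_eq_div_pow]
  unfold code
  omega

theorem dig1 (a b c d : ι) : dig (code x y a b c d) 1 = st x y a c d := by
  have h1 := st_lt x y a b c
  have h2 := st_lt x y a b d
  have h3 := st_lt x y a c d
  have h4 := st_lt x y b c d
  show (code x y a b c d >>> 3) % 8 = _
  rw [Nat.shiftRight_eq_div_pow]
  unfold code
  omega

theorem dig0 (a b c d : ι) : dig (code x y a b c d) 0 = st x y b c d := by
  have h1 := st_lt x y a b c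
  have h2 := st_lt x y a b d
  have h3 := st_lt x y a c d
  have h4 := st_lt x y b c d
  show (code x y a b c d >>> 0) % 8 = _
  rw [Nat.shiftRight_eq_div_pow]
  unfold code
  omega

theorem code_lt (a b c d : ι) : code x y a b c d < 4096 := by
  have h1 := st_lt x y a b c
  have h2 := st_lt x y a b d
  have h3 := st_lt x y a c d
  have h4 := st_lt x y b c d
  unfold code
  omega

section

variable (P : Fin 4 → ι)

/-- general position, without right angles if `r` is false -/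
def Gen (r : Bool) : Prop := ∀ i j k : Fin 4, i ≠ j → j ≠ k → i ≠ k →
  cr x y (P i) (P j) (P k) ≠ 0 ∧ (r = false → dt x y (P i) (P j) (P k) ≠ 0)

variable {P}

theorem Gen.crn {x y} {r : Bool} (hP : Gen x y P r) {i j k : Fin 4} (h1 : i ≠ j) (h2 : j ≠ k) (h3 : i ≠ k) :
    cr x y (P i) (P j) (P k) ≠ 0 := (hP i j k h1 h2 h3).1

theorem Gen.dtn {x y} {r : Bool} (hP : Gen x y P r) {i j k : Fin 4} (h1 : i ≠ j) (h2 : j ≠ k)
    (h3 : i ≠ k) (hr : r = false) : dt x y (P i) (P j) (P k) ≠ 0 := (hP i j k h1 h2 h3).2 hr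

open Classical in
theorem pos_swap {v p q : ι} (h : cr x y v p q ≠ 0) :
    decide (0 < cr x y v q p) = !decide (0 < cr x y v p q) := by
  rw [cr_swap x y v p q]
  by_cases g : 0 < cr x y v p q
  · simp [g, le_of_lt g]
  · have : cr x y v p q < 0 := lt_of_le_of_ne (not_lt.1 g) h
    simp [this, le_of_lt this]

open Classical in
theorem Od_eq {r : Bool} (hP : Gen x y P r) (o : Fin 4 → Bool)
    (h3 : o 3 = decide (0 < cr x y (P 0) (P 1) (P 2)))
    (h2 : o 2 = decide (0 < cr x y (P 0) (P 1) (P 3)))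
    (h1 : o 1 = decide (0 < cr x y (P 0) (P 2) (P 3)))
    (h0 : o 0 = decide (0 < cr x y (P 1) (P 2) (P 3)))
    (i j k : Fin 4) (hij : i ≠ j) (hjk : j ≠ k) (hik : i ≠ k) :
    Od o i j k = decide (0 < cr x y (P i) (P j) (P k)) := by
  have n3 : cr x y (P 0) (P 1) (P 2) ≠ 0 := hP.crn (by decide) (by decide) (by decide)
  have n2 : cr x y (P 0) (P 1) (P 3) ≠ 0 := hP.crn (by decide) (by decide) (by decide)
  have n1 : cr x y (P 0) (P 2) (P 3) ≠ 0 := hP.crn (by decide) (by decide) (by decide)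
  have n0 : cr x y (P 1) (P 2) (P 3) ≠ 0 := hP.crn (by decide) (by decide) (by decide)
  have key : ∀ (a b c : Fin 4) (m : Fin 4), o m = decide (0 < cr x y (P a) (P b) (P c)) →
      cr x y (P a) (P b) (P c) ≠ 0 →
      (o m = decide (0 < cr x y (P b) (P c) (P a)) ∧
      o m = decide (0 < cr x y (P c) (P a) (P b)) ∧
      (!o m) = decide (0 < cr x y (P a) (P c) (P b)) ∧
      (!o m) = decide (0 < cr x y (P c) (P b) (P a)) ∧
      (!o m) = decide (0 < cr x y (P b) (P a) (P c))) := by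
    intro a b c m hm hn
    have e1 : cr x y (P b) (P c) (P a) = cr x y (P a) (P b) (P c) := by unfold cr; ring
    have e2 : cr x y (P c) (P a) (P b) = cr x y (P a) (P b) (P c) := by unfold cr; ring
    have e3 : cr x y (P c) (P b) (P a) = cr x y (P a) (P c) (P b) := by unfold cr; ring
    have e4 : cr x y (P b) (P a) (P c) = cr x y (P a) (P c) (P b) := by unfold cr; ring
    rw [e1, e2, e3, e4, pos_swap x y hn, hm]
    exact ⟨rfl, rfl, rfl, rfl, rfl⟩
  obtain ⟨a1, a2, a3, a4, a5⟩ := key 0 1 2 3 h3 n3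
  obtain ⟨b1, b2, b3, b4, b5⟩ := key 0 1 3 2 h2 n2
  obtain ⟨c1, c2, c3, c4, c5⟩ := key 0 2 3 1 h1 n1
  obtain ⟨d1, d2, d3, d4, d5⟩ := key 1 2 3 0 h0 n0
  fin_cases i <;> fin_cases j <;> fin_cases k <;>
    first
      | exact absurd rfl hij
      | exact absurd rfl hjk
      | exact absurd rfl hik
      | assumption

open Classical in
theorem Wd_eq (n : Fin 4 → ℕ)
    (h3 : ((n 3 = 1) ↔ dt x y (P 0) (P 1) (P 2) ≤ 0) ∧ ((n 3 = 2) ↔ dt x y (P 1) (P 0) (P 2) ≤ 0) ∧
      ((n 3 = 3) ↔ dt x y (P 2) (P 0) (P 1) ≤ 0))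
    (h2 : ((n 2 = 1) ↔ dt x y (P 0) (P 1) (P 3) ≤ 0) ∧ ((n 2 = 2) ↔ dt x y (P 1) (P 0) (P 3) ≤ 0) ∧
      ((n 2 = 3) ↔ dt x y (P 3) (P 0) (P 1) ≤ 0))
    (h1 : ((n 1 = 1) ↔ dt x y (P 0) (P 2) (P 3) ≤ 0) ∧ ((n 1 = 2) ↔ dt x y (P 2) (P 0) (P 3) ≤ 0) ∧
      ((n 1 = 3) ↔ dt x y (P 3) (P 0) (P 2) ≤ 0))
    (h0 : ((n 0 = 1) ↔ dt x y (P 1) (P 2) (P 3) ≤ 0) ∧ ((n 0 = 2) ↔ dt x y (P 2) (P 1) (P 3) ≤ 0) ∧
      ((n 0 = 3) ↔ dt x y (P 3) (P 1) (P 2) ≤ 0))
    (i j k : Fin 4) (hij : i ≠ j) (hjk : j ≠ k) (hik : i ≠ k) :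
    Wd n i j k = decide (dt x y (P i) (P j) (P k) ≤ 0) := by
  have key : ∀ (a b c : Fin 4) (m : Fin 4),
      ((n m = 1) ↔ dt x y (P a) (P b) (P c) ≤ 0) ∧ ((n m = 2) ↔ dt x y (P b) (P a) (P c) ≤ 0) ∧
      ((n m = 3) ↔ dt x y (P c) (P a) (P b) ≤ 0) →
      ((n m == 1) = decide (dt x y (P a) (P b) (P c) ≤ 0) ∧
      (n m == 1) = decide (dt x y (P a) (P c) (P b) ≤ 0) ∧
      (n m == 2) = decide (dt x y (P b) (P a) (P c) ≤ 0) ∧
      (n m == 2) = decide (dt x y (P b) (P c) (P a) ≤ 0) ∧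
      (n m == 3) = decide (dt x y (P c) (P a) (P b) ≤ 0) ∧
      (n m == 3) = decide (dt x y (P c) (P b) (P a) ≤ 0)) := by
    intro a b c m ⟨g1, g2, g3⟩
    rw [dt_comm x y (P a) (P b) (P c), dt_comm x y (P b) (P a) (P c),
      dt_comm x y (P c) (P a) (P b)]
    have t1 : (n m == 1) = decide (dt x y (P a) (P b) (P c) ≤ 0) := by
      rw [Bool.eq_iff_iff, beq_iff_eq, decide_eq_true_iff]; exact g1
    have t2 : (n m == 2) = decide (dt x y (P b) (P a) (P c) ≤ 0) := by
      rw [Bool.eq_iff_iff, beq_iff_eq, decide_eq_true_iff]; exact g2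
    have t3 : (n m == 3) = decide (dt x y (P c) (P a) (P b) ≤ 0) := by
      rw [Bool.eq_iff_iff, beq_iff_eq, decide_eq_true_iff]; exact g3
    exact ⟨t1, t1, t2, t2, t3, t3⟩
  obtain ⟨a1, a2, a3, a4, a5, a6⟩ := key 0 1 2 3 h3
  obtain ⟨b1, b2, b3, b4, b5, b6⟩ := key 0 1 3 2 h2
  obtain ⟨c1, c2, c3, c4, c5, c6⟩ := key 0 2 3 1 h1
  obtain ⟨d1, d2, d3, d4, d5, d6⟩ := key 1 2 3 0 h0
  fin_cases i <;> fin_cases j <;> fin_cases k <;>
    first
      | exact absurd rfl hij
      | exact absurd rfl hjk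
      | exact absurd rfl hik
      | assumption

open Classical in
theorem rule1_ok (O W : Fin 4 → Fin 4 → Fin 4 → Bool)
    (hO : ∀ i j k : Fin 4, i ≠ j → j ≠ k → i ≠ k →
      O i j k = decide (0 < cr x y (P i) (P j) (P k)))
    (hW : ∀ i j k : Fin 4, i ≠ j → j ≠ k → i ≠ k →
      W i j k = decide (dt x y (P i) (P j) (P k) ≤ 0))
    {v p q w : Fin 4} (h1 : v ≠ p) (h2 : v ≠ q) (h3 : v ≠ w) (h4 : p ≠ q) (h5 : p ≠ w)
    (h6 : q ≠ w) : rule1 O W v p q w = true := by
  unfold rule1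
  rw [hO v p q h1 h4 h2, hO v q w h2 h6 h3, hO v p w h1 h5 h3, hO v w p h3 h5.symm h1,
    hW v p q h1 h4 h2, hW v q w h2 h6 h3, hW v p w h1 h5 h3, hW w p q h5.symm h4 h6.symm]
  have f1 : 0 < cr x y (P v) (P p) (P q) → 0 < cr x y (P v) (P q) (P w) →
      0 < cr x y (P v) (P p) (P w) →
      ((dt x y (P v) (P p) (P q) ≤ 0 ∨ dt x y (P v) (P q) (P w) ≤ 0) →
        dt x y (P v) (P p) (P w) ≤ 0) ∧
      ¬ (dt x y (P v) (P p) (P q) ≤ 0 ∧ dt x y (P v) (P q) (P w) ≤ 0) := by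
    intro g1 g2 g3
    constructor
    · rintro (g | g)
      · exact (rule_b x y g1 g2 g3 g).2.le
      · exact (rule_b' x y g1 g2 g3 g).2.le
    · rintro ⟨g, g'⟩
      have := (rule_b x y g1 g2 g3 g).1
      linarith
  have f2 : 0 < cr x y (P v) (P p) (P q) → 0 < cr x y (P v) (P q) (P w) →
      0 < cr x y (P v) (P w) (P p) →
      (dt x y (P v) (P p) (P q) ≤ 0 ∨ dt x y (P v) (P q) (P w) ≤ 0) ∧
      (dt x y (P w) (P p) (P q) ≤ 0 → dt x y (P v) (P p) (P q) ≤ 0) := by
    intro g1 g2 g3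
    constructor
    · by_contra hc
      push Not at hc
      exact rule_c x y g1 g2 g3 hc
    · intro g
      exact (rule_e x y g1 g2 g3 g).le
  simp only [Bool.and_eq_true, Bool.or_eq_true, Bool.not_eq_true', Bool.and_eq_false_iff,
    Bool.or_eq_false_iff, decide_eq_true_eq, decide_eq_false_iff_not]
  tauto

open Classical in
theorem rule2_ok {r : Bool} (hP : Gen x y P r) (O W : Fin 4 → Fin 4 → Fin 4 → Bool)
    (hO : ∀ i j k : Fin 4, i ≠ j → j ≠ k → i ≠ k →
      O i j k = decide (0 < cr x y (P i) (P j) (P k)))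
    (hW : ∀ i j k : Fin 4, i ≠ j → j ≠ k → i ≠ k →
      W i j k = decide (dt x y (P i) (P j) (P k) ≤ 0))
    {a b c d : Fin 4} (h1 : a ≠ b) (h2 : a ≠ c) (h3 : a ≠ d) (h4 : b ≠ c) (h5 : b ≠ d)
    (h6 : c ≠ d) : rule2 r O W a b c d = true := by
  unfold rule2
  rw [hO a b c h1 h4 h2, hO b c d h4 h6 h5, hO c d a h6 h3.symm h2.symm, hO d a b h3.symm h1 h5.symm,
    hW a d b h3 h5.symm h1, hW b a c h1.symm h2 h4, hW c b d h4.symm h5 h6,
    hW d c a h6.symm h2.symm h3.symm]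
  have f1 : 0 < cr x y (P a) (P b) (P c) → 0 < cr x y (P b) (P c) (P d) →
      0 < cr x y (P c) (P d) (P a) → 0 < cr x y (P d) (P a) (P b) →
      (dt x y (P a) (P d) (P b) ≤ 0 ∨ dt x y (P b) (P a) (P c) ≤ 0 ∨ dt x y (P c) (P b) (P d) ≤ 0 ∨
        dt x y (P d) (P c) (P a) ≤ 0) ∧
      (r = true ∨ ¬ (dt x y (P a) (P d) (P b) ≤ 0 ∧ dt x y (P b) (P a) (P c) ≤ 0 ∧
        dt x y (P c) (P b) (P d) ≤ 0 ∧ dt x y (P d) (P c) (P a) ≤ 0)) := by
    intro g1 g2 g3 g4
    constructor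
    · by_contra hc
      push Not at hc
      exact rule_d0 x y g1 g2 g3 g4 hc
    · rcases Bool.eq_false_or_eq_true r with hr | hr
      · exact Or.inl hr
      · right
        rintro ⟨e1, e2, e3, e4⟩
        exact rule_d4 x y g1 g2 g3 g4 ⟨lt_of_le_of_ne e1 (hP.dtn h3 h5.symm h1 hr),
          lt_of_le_of_ne e2 (hP.dtn h1.symm h2 h4 hr), lt_of_le_of_ne e3 (hP.dtn h4.symm h5 h6 hr),
          lt_of_le_of_ne e4 (hP.dtn h6.symm h2.symm h3.symm hr)⟩
  simp only [Bool.and_eq_true, Bool.or_eq_true, Bool.not_eq_true', Bool.and_eq_false_iff,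
    decide_eq_true_eq, decide_eq_false_iff_not]
  tauto

open Classical in
theorem rules_ok {r : Bool} (hP : Gen x y P r) (O W : Fin 4 → Fin 4 → Fin 4 → Bool)
    (hO : ∀ i j k : Fin 4, i ≠ j → j ≠ k → i ≠ k →
      O i j k = decide (0 < cr x y (P i) (P j) (P k)))
    (hW : ∀ i j k : Fin 4, i ≠ j → j ≠ k → i ≠ k →
      W i j k = decide (dt x y (P i) (P j) (P k) ≤ 0)) : rules r O W = true := by
  have hall : (perms.all fun Q => rule1 O W Q.1 Q.2.1 Q.2.2.1 Q.2.2.2 &&
      rule2 r O W Q.1 Q.2.1 Q.2.2.1 Q.2.2.2) = true := by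
    rw [List.all_eq_true]
    intro Q hQ
    obtain ⟨g1, g2, g3, g4, g5, g6⟩ := perms_ne Q hQ
    rw [rule1_ok x y O W hO hW g1 g2 g3 g4 g5 g6, rule2_ok x y hP O W hO hW g1 g2 g3 g4 g5 g6]
    rfl
  have hg := gp x y (P 0) (P 1) (P 2) (P 3)
  unfold rules
  rw [hall, hO 0 1 2 (by decide) (by decide) (by decide), hO 0 1 3 (by decide) (by decide) (by decide),
    hO 0 2 3 (by decide) (by decide) (by decide), hO 1 2 3 (by decide) (by decide) (by decide)]
  have n3 : cr x y (P 0) (P 1) (P 2) ≠ 0 := hP.crn (by decide) (by decide) (by decide)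
  have n2 : cr x y (P 0) (P 1) (P 3) ≠ 0 := hP.crn (by decide) (by decide) (by decide)
  have n1 : cr x y (P 0) (P 2) (P 3) ≠ 0 := hP.crn (by decide) (by decide) (by decide)
  have n0 : cr x y (P 1) (P 2) (P 3) ≠ 0 := hP.crn (by decide) (by decide) (by decide)
  have k1 : ¬ (0 < cr x y (P 0) (P 1) (P 2) ∧ ¬ 0 < cr x y (P 0) (P 1) (P 3) ∧
      0 < cr x y (P 0) (P 2) (P 3) ∧ ¬ 0 < cr x y (P 1) (P 2) (P 3)) := by
    rintro ⟨g1, g2, g3, g4⟩
    push Not at g2 g4
    linarith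
  have k2 : ¬ (¬ 0 < cr x y (P 0) (P 1) (P 2) ∧ 0 < cr x y (P 0) (P 1) (P 3) ∧
      ¬ 0 < cr x y (P 0) (P 2) (P 3) ∧ 0 < cr x y (P 1) (P 2) (P 3)) := by
    rintro ⟨g1, g2, g3, g4⟩
    push Not at g1 g3
    linarith
  simp only [Bool.and_eq_true, Bool.not_eq_true', Bool.and_eq_false_iff, Bool.not_eq_false',
    decide_eq_true_eq, decide_eq_false_iff_not, and_true]
  tauto

end

theorem okc_code {r : Bool} (a b c d : ι) (hP : Gen x y ![a, b, c, d] r) :
    okc r (code x y a b c d) = true := by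
  classical
  have n3 : cr x y a b c ≠ 0 := hP.crn (i := 0) (j := 1) (k := 2) (by decide) (by decide) (by decide)
  have n2 : cr x y a b d ≠ 0 := hP.crn (i := 0) (j := 1) (k := 3) (by decide) (by decide) (by decide)
  have n1 : cr x y a c d ≠ 0 := hP.crn (i := 0) (j := 2) (k := 3) (by decide) (by decide) (by decide)
  have n0 : cr x y b c d ≠ 0 := hP.crn (i := 1) (j := 2) (k := 3) (by decide) (by decide) (by decide)
  unfold okc
  apply rules_ok x y hP
  · apply Od_eq x y hP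
    · rw [dig3]; exact decide_eq_decide.2 (st_div x y a b c)
    · rw [dig2]; exact decide_eq_decide.2 (st_div x y a b d)
    · rw [dig1]; exact decide_eq_decide.2 (st_div x y a c d)
    · rw [dig0]; exact decide_eq_decide.2 (st_div x y b c d)
  · apply Wd_eq x y
    · rw [dig3]; exact ⟨st_mod1 x y a b c, st_mod2 x y n3, st_mod3 x y n3⟩
    · rw [dig2]; exact ⟨st_mod1 x y a b d, st_mod2 x y n2, st_mod3 x y n2⟩
    · rw [dig1]; exact ⟨st_mod1 x y a c d, st_mod2 x y n1, st_mod3 x y n1⟩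
    · rw [dig0]; exact ⟨st_mod1 x y b c d, st_mod2 x y n0, st_mod3 x y n0⟩

/-- general position of four points from that of all triples -/
theorem gen_of {r : Bool} {a b c d : ι} (h1 : a ≠ b) (h2 : a ≠ c) (h3 : a ≠ d) (h4 : b ≠ c)
    (h5 : b ≠ d) (h6 : c ≠ d)
    (hg : ∀ v p q : ι, v ≠ p → p ≠ q → v ≠ q → cr x y v p q ≠ 0)
    (hr : r = false → ∀ v p q : ι, v ≠ p → p ≠ q → v ≠ q → dt x y v p q ≠ 0) :
    Gen x y ![a, b, c, d] r := by
  have hinj : ∀ i j : Fin 4, i ≠ j → ![a, b, c, d] i ≠ ![a, b, c, d] j := by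
    intro i j hij
    fin_cases i <;> fin_cases j <;>
      first
        | exact absurd rfl hij
        | assumption
        | (apply Ne.symm; assumption)
  intro i j k hij hjk hik
  exact ⟨hg _ _ _ (hinj i j hij) (hinj j k hjk) (hinj i k hik),
    fun e => hr e _ _ _ (hinj i j hij) (hinj j k hjk) (hinj i k hik)⟩

/-- **The code of four points is one of the 476 possible codes** (no right angles). -/
theorem code_mem {a b c d : ι} (hP : Gen x y ![a, b, c, d] false) :
    TAB.testBit (code x y a b c d) = true := by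
  rw [← okc_eq (code x y a b c d) (code_lt x y a b c d)]
  exact okc_code x y a b c d hP

/-- **The code of four points is one of the 482 possible codes** (right angles allowed). -/
theorem code_memr {a b c d : ι} (hP : Gen x y ![a, b, c, d] true) :
    TABr.testBit (code x y a b c d) = true := by
  rw [← okc_eqr (code x y a b c d) (code_lt x y a b c d)]
  exact okc_code x y a b c d hP

end Pool.Agent.AKG
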