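import Pool.Agent.AK.Defs

set_option autoImplicit false

/-!
# Sign rules for four points in the plane

`cr` and `dt` are the cross product and the inner product of `AK.Defs`.
-/

namespace Pool.Agent.AKG

open Pool.Agent.AK

variable {ι : Type*} (x y : ι → ℝ)

theorem cr_swap (v p q : ι) : cr x y v q p = - cr x y v p q := by
  unfold cr; ring

theorem cr_rot (v p q : ι) : cr x y p q v = cr x y v p q := by
  unfold cr; ring

theorem dt_comm (v p q : ι) : dt x y v q p = dt x y v p q := by
  unfold dt; ring

/-- the Grassmann-Pluecker relation of four points -/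
theorem gp (a b c d : ι) :
    cr x y a b c - cr x y a b d + cr x y a c d - cr x y b c d = 0 := by
  unfold cr; ring

theorem re_eq (v p q w : ι) : dt x y v q q * dt x y v p w =
    dt x y v p q * dt x y v q w - cr x y v p q * cr x y v q w := by
  unfold dt cr; ring

theorem im_eq (v p q w : ι) : dt x y v q q * cr x y v p w =
    dt x y v p q * cr x y v q w + cr x y v p q * dt x y v q w := by
  unfold dt cr; ring

theorem dt_self_pos {v p q : ι} (h : 0 < cr x y v p q) : 0 < dt x y v q q := by
  have h1 : 0 ≤ dt x y v q q := by
    unfold dt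
    nlinarith [mul_self_nonneg (x q - x v), mul_self_nonneg (y q - y v)]
  rcases h1.lt_or_eq with h2 | h2
  · exact h2
  · exfalso
    have hx : x q - x v = 0 := by
      unfold dt at h2
      nlinarith [mul_self_nonneg (x q - x v), mul_self_nonneg (y q - y v)]
    have hy : y q - y v = 0 := by
      unfold dt at h2
      nlinarith [mul_self_nonneg (x q - x v), mul_self_nonneg (y q - y v)]
    unfold cr at h
    rw [hx, hy] at h
    linarith

/-- at most one angle of a triangle is not acute -/
theorem tri_one {v a b : ι} (h : 0 < dt x y v a a) (h1 : dt x y v a b ≤ 0) :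
    0 < dt x y a v b := by
  have h2 : dt x y v a b + dt x y a v b = dt x y v a a := by
    unfold dt; ring
  linarith

/-- the ray `v q` is between `v p` and `v w`; the angle `p v q` is not acute -/
theorem rule_b {v p q w : ι} (h1 : 0 < cr x y v p q) (h2 : 0 < cr x y v q w)
    (h3 : 0 < cr x y v p w) (h4 : dt x y v p q ≤ 0) :
    0 < dt x y v q w ∧ dt x y v p w < 0 := by
  have hq := dt_self_pos x y h1
  have i1 := im_eq x y v p q w
  have i2 := re_eq x y v p q w
  have a1 : 0 < dt x y v q q * cr x y v p w := mul_pos hq h3
  have a2 : dt x y v p q * cr x y v q w ≤ 0 := mul_nonpos_of_nonpos_of_nonneg h4 h2.le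
  have a3 : 0 < cr x y v p q * dt x y v q w := by linarith
  have a4 : 0 < dt x y v q w := pos_of_mul_pos_right a3 h1.le
  refine ⟨a4, ?_⟩
  have a5 : dt x y v p q * dt x y v q w ≤ 0 := mul_nonpos_of_nonpos_of_nonneg h4 a4.le
  have a6 : 0 < cr x y v p q * cr x y v q w := mul_pos h1 h2
  have a7 : dt x y v q q * dt x y v p w < 0 := by linarith
  by_contra hc
  push Not at hc
  have := mul_nonneg hq.le hc
  linarith

/-- the ray `v q` is between `v p` and `v w`; the angle `q v w` is not acute -/
theorem rule_b' {v p q w : ι} (h1 : 0 < cr x y v p q) (h2 : 0 < cr x y v q w)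
    (h3 : 0 < cr x y v p w) (h4 : dt x y v q w ≤ 0) :
    0 < dt x y v p q ∧ dt x y v p w < 0 := by
  have hq := dt_self_pos x y h1
  have i1 := im_eq x y v p q w
  have i2 := re_eq x y v p q w
  have a1 : 0 < dt x y v q q * cr x y v p w := mul_pos hq h3
  have a2 : cr x y v p q * dt x y v q w ≤ 0 := mul_nonpos_of_nonneg_of_nonpos h1.le h4
  have a3 : 0 < dt x y v p q * cr x y v q w := by linarith
  have a4 : 0 < dt x y v p q := pos_of_mul_pos_left a3 h2.le
  refine ⟨a4, ?_⟩
  have a5 : dt x y v p q * dt x y v q w ≤ 0 := mul_nonpos_of_nonneg_of_nonpos a4.le h4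
  have a6 : 0 < cr x y v p q * cr x y v q w := mul_pos h1 h2
  have a7 : dt x y v q q * dt x y v p w < 0 := by linarith
  by_contra hc
  push Not at hc
  have := mul_nonneg hq.le hc
  linarith

/-- `v` is inside the triangle `p q w`: two of the three angles at `v` are not acute -/
theorem rule_c {v p q w : ι} (h1 : 0 < cr x y v p q) (h2 : 0 < cr x y v q w)
    (h3 : 0 < cr x y v w p) : ¬ (0 < dt x y v p q ∧ 0 < dt x y v q w) := by
  rintro ⟨h4, h5⟩
  have hq := dt_self_pos x y h1
  have i1 := im_eq x y v p q w
  rw [cr_swap] at h3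
  have a1 := mul_pos h4 h2
  have a2 := mul_pos h1 h5
  have a3 : dt x y v q q * cr x y v p w < 0 := by
    have := mul_pos hq h3
    linarith
  linarith

/-- `v` is inside the triangle `p q r`: it sees `p q` under a larger angle than `r` -/
theorem rule_e {v p q r : ι} (h1 : 0 < cr x y v p q) (h2 : 0 < cr x y v q r)
    (h3 : 0 < cr x y v r p) (h4 : dt x y r p q ≤ 0) : dt x y v p q < 0 := by
  have i1 : (cr x y v p q + cr x y v q r + cr x y v r p) ^ 2 * dt x y v p q =
      - (cr x y v q r * (cr x y v p q + cr x y v r p)) * dt x y r p p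
      - (cr x y v r p * (cr x y v p q + cr x y v q r)) * dt x y r q q
      + ((cr x y v p q + cr x y v r p) * (cr x y v p q + cr x y v q r)
        + cr x y v q r * cr x y v r p) * dt x y r p q := by
    unfold cr dt; ring
  have a1 : 0 < cr x y v q r * (cr x y v p q + cr x y v r p) := by positivity
  have a2 : 0 < cr x y v r p * (cr x y v p q + cr x y v q r) := by positivity
  have a3 : 0 < (cr x y v p q + cr x y v r p) * (cr x y v p q + cr x y v q r)
        + cr x y v q r * cr x y v r p := by positivity
  have b1 : 0 < dt x y r q q := by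
    have : 0 < cr x y r v q := by rw [← cr_rot]; exact h2
    exact dt_self_pos x y this
  have b2 : 0 ≤ dt x y r p p := by
    unfold dt
    nlinarith [mul_self_nonneg (x p - x r), mul_self_nonneg (y p - y r)]
  have c1 := mul_nonneg a1.le b2
  have c2 := mul_pos a2 b1
  have c3 := mul_nonpos_of_nonneg_of_nonpos a3.le h4
  by_contra hc
  push Not at hc
  have := mul_nonneg (sq_nonneg (cr x y v p q + cr x y v q r + cr x y v r p)) hc
  linarith

/-- the two products of opposite sides of a closed quadrilateral -/
theorem quad_im (a b c d : ι) :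
    dt x y b c c * ((x b - x a) * (y d - y c) - (y b - y a) * (x d - x c)) =
      - (dt x y b a c * cr x y b c d) - cr x y a b c * dt x y c b d := by
  unfold cr dt; ring

/-- a convex quadrilateral does not have four acute angles -/
theorem rule_d0 {a b c d : ι} (h1 : 0 < cr x y a b c) (h2 : 0 < cr x y b c d)
    (h3 : 0 < cr x y c d a) (h4 : 0 < cr x y d a b) :
    ¬ (0 < dt x y a d b ∧ 0 < dt x y b a c ∧ 0 < dt x y c b d ∧ 0 < dt x y d c a) := by
  rintro ⟨k1, k2, k3, k4⟩
  have i1 := quad_im x y a b c d
  have i2 := quad_im x y c d a b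
  have p1 : 0 < dt x y b c c := by
    have : 0 < cr x y b a c → 0 < dt x y b c c := dt_self_pos x y
    have e : cr x y b c a = cr x y a b c := cr_rot x y a b c
    have h5 : 0 < cr x y b c a := by rw [e]; exact h1
    have h6 : 0 ≤ dt x y b c c := by
      unfold dt
      nlinarith [mul_self_nonneg (x c - x b), mul_self_nonneg (y c - y b)]
    rcases h6.lt_or_eq with h7 | h7
    · exact h7
    · exfalso
      have hx : x c - x b = 0 := by
        unfold dt at h7
        nlinarith [mul_self_nonneg (x c - x b), mul_self_nonneg (y c - y b)]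
      have hy : y c - y b = 0 := by
        unfold dt at h7
        nlinarith [mul_self_nonneg (x c - x b), mul_self_nonneg (y c - y b)]
      unfold cr at h5
      rw [hx, hy] at h5
      linarith
  have p2 : 0 < dt x y d a a := by
    have : 0 < cr x y c d a := h3
    have h5 : 0 < cr x y d a c := by
      have e : cr x y d a c = cr x y c d a := cr_rot x y c d a
      rw [e]; exact h3
    have h6 : 0 ≤ dt x y d a a := by
      unfold dt
      nlinarith [mul_self_nonneg (x a - x d), mul_self_nonneg (y a - y d)]
    rcases h6.lt_or_eq with h7 | h7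
    · exact h7
    · exfalso
      have hx : x a - x d = 0 := by
        unfold dt at h7
        nlinarith [mul_self_nonneg (x a - x d), mul_self_nonneg (y a - y d)]
      have hy : y a - y d = 0 := by
        unfold dt at h7
        nlinarith [mul_self_nonneg (x a - x d), mul_self_nonneg (y a - y d)]
      unfold cr at h5
      rw [hx, hy] at h5
      linarith
  have a1 := mul_pos k2 h2
  have a2 := mul_pos h1 k3
  have a3 := mul_pos k4 h4
  have a4 : 0 < cr x y c d a * dt x y a d b := mul_pos h3 k1
  have n1 : (x b - x a) * (y d - y c) - (y b - y a) * (x d - x c) < 0 := by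
    by_contra hc
    push Not at hc
    have := mul_nonneg p1.le hc
    linarith
  have n2 : (x d - x c) * (y b - y a) - (y d - y c) * (x b - x a) < 0 := by
    by_contra hc
    push Not at hc
    have := mul_nonneg p2.le hc
    linarith
  linarith

/-- a convex quadrilateral does not have four obtuse angles -/
theorem rule_d4 {a b c d : ι} (h1 : 0 < cr x y a b c) (h2 : 0 < cr x y b c d)
    (h3 : 0 < cr x y c d a) (h4 : 0 < cr x y d a b) :
    ¬ (dt x y a d b < 0 ∧ dt x y b a c < 0 ∧ dt x y c b d < 0 ∧ dt x y d c a < 0) := by
  rintro ⟨k1, k2, k3, k4⟩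
  have i1 := quad_im x y a b c d
  have i2 := quad_im x y c d a b
  have p1 : 0 ≤ dt x y b c c := by
    unfold dt
    nlinarith [mul_self_nonneg (x c - x b), mul_self_nonneg (y c - y b)]
  have p2 : 0 ≤ dt x y d a a := by
    unfold dt
    nlinarith [mul_self_nonneg (x a - x d), mul_self_nonneg (y a - y d)]
  have a1 := mul_neg_of_neg_of_pos k2 h2
  have a2 := mul_neg_of_pos_of_neg h1 k3
  have a3 := mul_neg_of_neg_of_pos k4 h4
  have a4 : cr x y c d a * dt x y a d b < 0 := mul_neg_of_pos_of_neg h3 k1
  have n1 : 0 < (x b - x a) * (y d - y c) - (y b - y a) * (x d - x c) := by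
    by_contra hc
    push Not at hc
    have := mul_nonpos_of_nonneg_of_nonpos p1 hc
    linarith
  have n2 : 0 < (x d - x c) * (y b - y a) - (y d - y c) * (x b - x a) := by
    by_contra hc
    push Not at hc
    have := mul_nonpos_of_nonneg_of_nonpos p2 hc
    linarith
  linarith

end Pool.Agent.AKG
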