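import Pool.Agent.AKG.Anti

set_option autoImplicit false

/-!
# Three roots with acute angles and free points: the states
-/

namespace Pool.Agent.AKG

open Pool.Agent.AK

variable {ι : Type*} (x y : ι → ℝ)

/-- the state of `(r, v, u)` from that of `(r, u, v)` -/
def rev (s : ℕ) : ℕ :=
  match s with
  | 0 => 4 | 1 => 5 | 2 => 7 | 3 => 6 | 4 => 0 | 5 => 1 | 6 => 3 | 7 => 2 | s + 8 => s + 8

/-- three roots in counterclockwise order whose angles are acute in the set `A` -/
structure Rts (A : Set ι) (a b c : ι) : Prop where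
  ha : a ∈ A
  hb : b ∈ A
  hc : c ∈ A
  ab : a ≠ b
  ac : a ≠ c
  bc : b ≠ c
  ccw : 0 < cr x y a b c
  gen : ∀ v p q : ι, v ≠ p → p ≠ q → v ≠ q → cr x y v p q ≠ 0
  nor : ∀ v p q : ι, v ≠ p → p ≠ q → v ≠ q → dt x y v p q ≠ 0
  Ra : ∀ p ∈ A, ∀ q ∈ A, p ≠ a → q ≠ a → 0 < dt x y a p q
  Rb : ∀ p ∈ A, ∀ q ∈ A, p ≠ b → q ≠ b → 0 < dt x y b p q
  Rc : ∀ p ∈ A, ∀ q ∈ A, p ≠ c → q ≠ c → 0 < dt x y c p q

/-- the state of a free point -/
noncomputable def tau (a b c u : ι) : ℕ := (st x y a b u * 8 + st x y a c u) * 8 + st x y b c u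

/-- the thirteen states of a free point -/
def types : List ℕ := [196, 199, 220, 259, 283, 287, 316, 319, 451, 455, 476, 479, 508]

/-- the digit does not mark position `k` -/
def nmk (s k : ℕ) : Bool := s % 4 != k

theorem types_tab : ((List.range 512).all fun t => !(TAB.testBit (4 * 512 + t) &&
    nmk (t / 64) 1 && nmk (t / 64) 2 && nmk (t / 8 % 8) 1 && nmk (t / 8 % 8) 2 &&
    nmk (t % 8) 1 && nmk (t % 8) 2) || types.contains t) = true := by
  decide +kernel

theorem st_swap {r u v : ι} (h : cr x y r u v ≠ 0) : st x y r v u = rev (st x y r u v) := by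
  have h1 := not_two x y h
  have h0 : cr x y r v u ≠ 0 := by rw [cr_swap]; exact neg_ne_zero.2 h
  have h2 : dt x y r u v ≤ 0 → 0 < dt x y v r u := by
    intro g
    exact not_two x y h0 (by rw [dt_comm]; exact g)
  have h3 : cr x y u v r ≠ 0 := by rw [cr_rot]; exact h
  have h4 : dt x y u r v ≤ 0 → 0 < dt x y v r u := by
    intro g
    have := not_two x y h3 (by rw [dt_comm]; exact g)
    rw [dt_comm] at this
    exact this
  have e1 : cr x y r v u = - cr x y r u v := cr_swap x y r u v
  have e2 : dt x y r v u = dt x y r u v := dt_comm x y r u v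
  unfold st
  rw [e1, e2]
  rcases lt_or_gt_of_ne h with g | g
  · have g' : ¬ 0 < cr x y r u v := not_lt.2 g.le
    have g'' : 0 < - cr x y r u v := by linarith
    rw [if_pos g'', if_neg g']
    by_cases k1 : dt x y r u v ≤ 0
    · simp [k1, rev]
    · by_cases k2 : dt x y u r v ≤ 0
      · have k3 := not_le.2 (h4 k2)
        simp [k1, k2, k3, rev]
      · by_cases k3 : dt x y v r u ≤ 0
        · simp [k1, k2, k3, rev]
        · simp [k1, k2, k3, rev]
  · have g'' : ¬ 0 < - cr x y r u v := by linarith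
    rw [if_neg g'', if_pos g]
    by_cases k1 : dt x y r u v ≤ 0
    · simp [k1, rev]
    · by_cases k2 : dt x y u r v ≤ 0
      · have k3 := not_le.2 (h4 k2)
        simp [k1, k2, k3, rev]
      · by_cases k3 : dt x y v r u ≤ 0
        · simp [k1, k2, k3, rev]
        · simp [k1, k2, k3, rev]

theorem NAc_iff {a b c : ι} : NAc x y a b c ↔ st x y a b c % 4 ≠ 0 := by
  unfold NAc st
  split_ifs <;> simp_all

variable {x y} {A : Set ι} {a b c : ι}

theorem Rts.st_abc (h : Rts x y A a b c) : st x y a b c = 4 := by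
  have h1 := h.Ra b h.hb c h.hc h.ab.symm h.ac.symm
  have h2 := h.Rb a h.ha c h.hc h.ab h.bc.symm
  have h3 := h.Rc a h.ha b h.hb h.ac h.bc
  unfold st
  rw [if_pos h.ccw, if_neg (not_le.2 h1), if_neg (not_le.2 h2), if_neg (not_le.2 h3)]

theorem nmk1 {p q r : ι} (h : 0 < dt x y p q r) : nmk (st x y p q r) 1 = true := by
  unfold nmk
  rw [bne_iff_ne]
  intro e
  rw [st_mod1] at e
  linarith

theorem nmk2 {p q r : ι} (hg : cr x y p q r ≠ 0) (h : 0 < dt x y q p r) :
    nmk (st x y p q r) 2 = true := by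
  unfold nmk
  rw [bne_iff_ne]
  intro e
  rw [st_mod2 x y hg] at e
  linarith

theorem Rts.tau_lt (a b c u : ι) : tau x y a b c u < 512 := by
  have h1 := st_lt x y a b u
  have h2 := st_lt x y a c u
  have h3 := st_lt x y b c u
  unfold tau
  omega

/-- (G1) the state of a free point is one of the thirteen -/
theorem Rts.tau_mem (h : Rts x y A a b c) {u : ι} (hu : u ∈ A) (ua : u ≠ a) (ub : u ≠ b)
    (uc : u ≠ c) : tau x y a b c u ∈ types := by
  have h1 := st_lt x y a b u
  have h2 := st_lt x y a c u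
  have h3 := st_lt x y b c u
  have ht := types_tab
  have h4 := List.all_eq_true.1 ht (tau x y a b c u) (List.mem_range.2 (Rts.tau_lt a b c u))
  have hcode : TAB.testBit (4 * 512 + tau x y a b c u) = true := by
    have h5 := code_mem (x := x) (y := y) (gen_of x y h.ab h.ac ua.symm h.bc ub.symm uc.symm h.gen
      (fun _ => h.nor))
    have h6 : code x y a b c u = 4 * 512 + tau x y a b c u := by
      unfold code tau
      rw [h.st_abc]
      ring
    rwa [h6] at h5
  have d1 : tau x y a b c u / 64 = st x y a b u := by unfold tau; omega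
  have d2 : tau x y a b c u / 8 % 8 = st x y a c u := by unfold tau; omega
  have d3 : tau x y a b c u % 8 = st x y b c u := by unfold tau; omega
  have k1 := nmk1 (h.Ra b h.hb u hu h.ab.symm ua)
  have k2 := nmk2 (h.gen a b u h.ab ub.symm ua.symm) (h.Rb a h.ha u hu h.ab ub)
  have k3 := nmk1 (h.Ra c h.hc u hu h.ac.symm ua)
  have k4 := nmk2 (h.gen a c u h.ac uc.symm ua.symm) (h.Rc a h.ha u hu h.ac uc)
  have k5 := nmk1 (h.Rb c h.hc u hu h.bc.symm ub)
  have k6 := nmk2 (h.gen b c u h.bc uc.symm ub.symm) (h.Rc b h.hb u hu h.bc uc)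
  rw [hcode, d1, d2, d3, k1, k2, k3, k4, k5, k6] at h4
  simpa using h4

/-- the test of a pair of free points -/
def pairOk (p q : ℕ) (s t r : ℕ) : Bool :=
  TAB.testBit ((((p / 64) * 8 + q / 64) * 8 + s) * 8 + t) &&
  TAB.testBit ((((p / 8 % 8) * 8 + q / 8 % 8) * 8 + s) * 8 + r) &&
  TAB.testBit ((((p % 8) * 8 + q % 8) * 8 + t) * 8 + r) &&
  nmk s 1 && nmk t 1 && nmk r 1

/-- (G2) -/
theorem Rts.pair_ok (h : Rts x y A a b c) {u v : ι} (hu : u ∈ A) (ua : u ≠ a) (ub : u ≠ b)
    (uc : u ≠ c) (hv : v ∈ A) (va : v ≠ a) (vb : v ≠ b) (vc : v ≠ c) (uv : u ≠ v) :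
    pairOk (tau x y a b c u) (tau x y a b c v) (st x y a u v) (st x y b u v) (st x y c u v) =
      true := by
  have h1 := st_lt x y a b u
  have h2 := st_lt x y a c u
  have h3 := st_lt x y b c u
  have g1 := st_lt x y a b v
  have g2 := st_lt x y a c v
  have g3 := st_lt x y b c v
  have d1 : tau x y a b c u / 64 = st x y a b u := by unfold tau; omega
  have d2 : tau x y a b c u / 8 % 8 = st x y a c u := by unfold tau; omega
  have d3 : tau x y a b c u % 8 = st x y b c u := by unfold tau; omega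
  have e1 : tau x y a b c v / 64 = st x y a b v := by unfold tau; omega
  have e2 : tau x y a b c v / 8 % 8 = st x y a c v := by unfold tau; omega
  have e3 : tau x y a b c v % 8 = st x y b c v := by unfold tau; omega
  have c1 := code_mem (x := x) (y := y) (gen_of x y h.ab ua.symm va.symm ub.symm vb.symm uv h.gen
    (fun _ => h.nor))
  have c2 := code_mem (x := x) (y := y) (gen_of x y h.ac ua.symm va.symm uc.symm vc.symm uv h.gen
    (fun _ => h.nor))
  have c3 := code_mem (x := x) (y := y) (gen_of x y h.bc ub.symm vb.symm uc.symm vc.symm uv h.gen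
    (fun _ => h.nor))
  have k1 := nmk1 (h.Ra u hu v hv ua va)
  have k2 := nmk1 (h.Rb u hu v hv ub vb)
  have k3 := nmk1 (h.Rc u hu v hv uc vc)
  unfold pairOk
  rw [d1, d2, d3, e1, e2, e3, k1, k2, k3]
  unfold code at c1 c2 c3
  rw [c1, c2, c3]
  rfl

/-- (G3) the test of a triple of free points with a root -/
theorem Rts.tri_ok (h : Rts x y A a b c) {r u v w : ι} (ru : r ≠ u) (rv : r ≠ v) (rw' : r ≠ w)
    (uv : u ≠ v) (uw : u ≠ w) (vw : v ≠ w) :
    TAB.testBit (((st x y r u v * 8 + st x y r u w) * 8 + st x y r v w) * 8 + st x y u v w) =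
      true := by
  have c1 := code_mem (x := x) (y := y) (gen_of x y ru rv rw' uv uw vw h.gen (fun _ => h.nor))
  exact c1

end Pool.Agent.AKG
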