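import Pool.Agent.AKG.Hull3Link
import Pool.Agent.AKU.Sym

set_option autoImplicit false

/-!
# Three roots forming an acute triangle, and free points: the states
-/

namespace Pool.Agent.AKG

open Pool.Agent.AK Pool.Agent.AKU

/-- state of `(q, r, p)` from that of `(p, q, r)` -/
def rotd (s : ℕ) : ℕ :=
  match s with
  | 0 => 0 | 1 => 3 | 2 => 1 | 3 => 2 | 4 => 4 | 5 => 7 | 6 => 5 | 7 => 6 | s + 8 => s + 8

/-- state of `(q, p, r)` from that of `(p, q, r)` -/
def s12 (s : ℕ) : ℕ :=
  match s with
  | 0 => 4 | 1 => 6 | 2 => 5 | 3 => 7 | 4 => 0 | 5 => 2 | 6 => 1 | 7 => 3 | s + 8 => s + 8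

section

variable {ι : Type*} (x y : ι → ℝ)

theorem st_rot {p q r : ι} (h : cr x y p q r ≠ 0) : st x y q r p = rotd (st x y p q r) := by
  have e0 : cr x y q r p = cr x y p q r := cr_rot x y p q r
  have h1 := not_two x y h
  have hq : cr x y q p r ≠ 0 := by
    have : cr x y q p r = - cr x y q r p := cr_swap x y q r p
    rw [this, e0]
    exact neg_ne_zero.2 h
  have h2 : dt x y p q r ≤ 0 → 0 < dt x y r p q := by
    intro g
    have h3 : cr x y p r q ≠ 0 := by rw [cr_swap]; exact neg_ne_zero.2 h
    exact not_two x y h3 (by rw [dt_comm]; exact g)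
  have h4 : dt x y q p r ≤ 0 → 0 < dt x y r p q := by
    intro g
    have h5 : cr x y q r p ≠ 0 := by rw [e0]; exact h
    have := not_two x y h5 (by rw [dt_comm]; exact g)
    rw [dt_comm] at this
    exact this
  have c1 : dt x y q r p = dt x y q p r := dt_comm x y q p r
  have c2 : dt x y r q p = dt x y r p q := dt_comm x y r p q
  unfold st
  rw [e0, c1, c2]
  by_cases g : 0 < cr x y p q r
  · rw [if_pos g]
    by_cases k1 : dt x y p q r ≤ 0
    · have a1 := not_le.2 (h1 k1)
      have a2 := not_le.2 (h2 k1)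
      simp [k1, a1, a2, rotd]
    · by_cases k2 : dt x y q p r ≤ 0
      · simp [k1, k2, rotd]
      · by_cases k3 : dt x y r p q ≤ 0
        · simp [k1, k2, k3, rotd]
        · simp [k1, k2, k3, rotd]
  · rw [if_neg g]
    by_cases k1 : dt x y p q r ≤ 0
    · have a1 := not_le.2 (h1 k1)
      have a2 := not_le.2 (h2 k1)
      simp [k1, a1, a2, rotd]
    · by_cases k2 : dt x y q p r ≤ 0
      · simp [k1, k2, rotd]
      · by_cases k3 : dt x y r p q ≤ 0
        · simp [k1, k2, k3, rotd]
        · simp [k1, k2, k3, rotd]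

theorem s12_eq (s : ℕ) (hs : s < 8) : s12 s = rev (rotd s) := by
  interval_cases s <;> decide

theorem st_s12 {p q r : ι} (h : cr x y p q r ≠ 0) : st x y q p r = s12 (st x y p q r) := by
  rw [s12_eq _ (st_lt ..), ← st_rot x y h]
  exact st_swap x y (by rw [cr_rot]; exact h)

theorem st_rot2 {p q r : ι} (h : cr x y p q r ≠ 0) :
    st x y r p q = rotd (rotd (st x y p q r)) := by
  rw [← st_rot x y h, ← st_rot x y (by rw [cr_rot]; exact h)]

end

/-- digits of the state of a point -/
def t2 (t : ℕ) : ℕ := t / 64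
def t1 (t : ℕ) : ℕ := t / 8 % 8
def t0 (t : ℕ) : ℕ := t % 8

/-- the state of the triangle in which the root `k` is replaced by the point of state `t` -/
def xst (k : Fin 3) (t : ℕ) : ℕ :=
  match k with
  | 0 => rotd (rotd (t0 t))
  | 1 => rev (t1 t)
  | 2 => t2 t

/-- the code of the four points: the three roots, the root `k` replaced by the point of state `t`,
and the point of state `t'`; `s` is the code of the pair -/
def xch (k : Fin 3) (t t' s : ℕ) : ℕ :=
  match k with
  | 0 => ((xst 0 t * 8 + s12 (dg1 s)) * 8 + s12 (dg2 s)) * 8 + t0 t'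
  | 1 => ((xst 1 t * 8 + dg0 s) * 8 + t1 t') * 8 + s12 (dg2 s)
  | 2 => ((xst 2 t * 8 + t2 t') * 8 + dg0 s) * 8 + dg1 s

/-- code of the same four points, first two points exchanged -/
def cs12 (k : ℕ) : ℕ :=
  ((s12 (k / 512 % 8) * 8 + s12 (k / 64 % 8)) * 8 + k % 8) * 8 + k / 8 % 8

/-- code of the same four points, second and third point exchanged -/
def cs23 (k : ℕ) : ℕ :=
  ((rev (k / 512 % 8) * 8 + k / 8 % 8) * 8 + k / 64 % 8) * 8 + s12 (k % 8)

section

variable {ι : Type*} {x y : ι → ℝ}

theorem tau_lt' (a b c u : ι) : tau x y a b c u < 512 := Rts.tau_lt a b c u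

theorem t2_tau (a b c u : ι) : t2 (tau x y a b c u) = st x y a b u := by
  have h1 := st_lt x y a b u
  have h2 := st_lt x y a c u
  have h3 := st_lt x y b c u
  unfold tau t2
  omega

theorem t1_tau (a b c u : ι) : t1 (tau x y a b c u) = st x y a c u := by
  have h1 := st_lt x y a b u
  have h2 := st_lt x y a c u
  have h3 := st_lt x y b c u
  unfold tau t1
  omega

theorem t0_tau (a b c u : ι) : t0 (tau x y a b c u) = st x y b c u := by
  have h1 := st_lt x y a b u
  have h2 := st_lt x y a c u
  have h3 := st_lt x y b c u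
  unfold tau t0
  omega

/-- the code of a pair of free points -/
noncomputable def cixA (x y : ι → ℝ) (a b c u v : ι) : ℕ :=
  st x y a u v + 8 * st x y b u v + 64 * st x y c u v

theorem dg0_cixA (a b c u v : ι) : dg0 (cixA x y a b c u v) = st x y a u v := dg0_mk (st_lt ..)
theorem dg1_cixA (a b c u v : ι) : dg1 (cixA x y a b c u v) = st x y b u v :=
  dg1_mk (st_lt ..) (st_lt ..)
theorem dg2_cixA (a b c u v : ι) : dg2 (cixA x y a b c u v) = st x y c u v :=
  dg2_mk (st_lt ..) (st_lt ..) (st_lt ..)

theorem cixA_lt (a b c u v : ι) : cixA x y a b c u v < 512 := by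
  have h1 := st_lt x y a u v
  have h2 := st_lt x y b u v
  have h3 := st_lt x y c u v
  unfold cixA
  omega

variable (x y) in
/-- general position and no right angles -/
structure GN : Prop where
  gen : ∀ v p q : ι, v ≠ p → p ≠ q → v ≠ q → cr x y v p q ≠ 0
  nor : ∀ v p q : ι, v ≠ p → p ≠ q → v ≠ q → dt x y v p q ≠ 0

theorem GN.mem (h : GN x y) {a b c d : ι} (h1 : a ≠ b) (h2 : a ≠ c) (h3 : a ≠ d) (h4 : b ≠ c)
    (h5 : b ≠ d) (h6 : c ≠ d) : TAB.testBit (code x y a b c d) = true :=
  code_mem (x := x) (y := y) (gen_of x y h1 h2 h3 h4 h5 h6 h.gen (fun _ => h.nor))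

/-- replacement of a root -/
theorem GN.xst_eq (h : GN x y) {rt : Fin 3 → ι} (hi : Function.Injective rt) {u : ι}
    (hu : ∀ k, u ≠ rt k) (k : Fin 3) :
    xst k (tau x y (rt 0) (rt 1) (rt 2) u) =
      st x y (Function.update rt k u 0) (Function.update rt k u 1) (Function.update rt k u 2) := by
  have n01 : rt 0 ≠ rt 1 := fun e => by simpa using hi e
  have n02 : rt 0 ≠ rt 2 := fun e => by simpa using hi e
  have n12 : rt 1 ≠ rt 2 := fun e => by simpa using hi e
  fin_cases k
  · show xst 0 _ = st x y (Function.update rt 0 u 0) (Function.update rt 0 u 1)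
      (Function.update rt 0 u 2)
    rw [Function.update_self, Function.update_of_ne (by decide), Function.update_of_ne (by decide)]
    unfold xst
    rw [t0_tau]
    exact (st_rot2 x y (h.gen _ _ _ n12 (hu 2).symm (hu 1).symm)).symm
  · show xst 1 _ = st x y (Function.update rt 1 u 0) (Function.update rt 1 u 1)
      (Function.update rt 1 u 2)
    rw [Function.update_self, Function.update_of_ne (by decide), Function.update_of_ne (by decide)]
    unfold xst
    rw [t1_tau]
    exact (st_swap x y (h.gen _ _ _ n02 (hu 2).symm (hu 0).symm)).symm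
  · show xst 2 _ = st x y (Function.update rt 2 u 0) (Function.update rt 2 u 1)
      (Function.update rt 2 u 2)
    rw [Function.update_self, Function.update_of_ne (by decide), Function.update_of_ne (by decide)]
    unfold xst
    rw [t2_tau]

/-- replacement of a root, with a fourth point -/
theorem GN.xch_eq (h : GN x y) {rt : Fin 3 → ι} (hi : Function.Injective rt) {u v : ι}
    (hu : ∀ k, u ≠ rt k) (hv : ∀ k, v ≠ rt k) (huv : u ≠ v) (k : Fin 3) :
    xch k (tau x y (rt 0) (rt 1) (rt 2) u) (tau x y (rt 0) (rt 1) (rt 2) v)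
      (cixA x y (rt 0) (rt 1) (rt 2) u v) =
      code x y (Function.update rt k u 0) (Function.update rt k u 1) (Function.update rt k u 2)
        v := by
  have n01 : rt 0 ≠ rt 1 := fun e => by simpa using hi e
  have n02 : rt 0 ≠ rt 2 := fun e => by simpa using hi e
  have n12 : rt 1 ≠ rt 2 := fun e => by simpa using hi e
  have hx := h.xst_eq hi hu k
  fin_cases k
  · show xch 0 _ _ _ = code x y (Function.update rt 0 u 0) (Function.update rt 0 u 1)
      (Function.update rt 0 u 2) v
    change xst 0 _ = st x y (Function.update rt 0 u 0) (Function.update rt 0 u 1)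
      (Function.update rt 0 u 2) at hx
    rw [Function.update_self, Function.update_of_ne (by decide),
      Function.update_of_ne (by decide)] at hx ⊢
    unfold xch code
    rw [hx, dg1_cixA, dg2_cixA, t0_tau, ← st_s12 x y (h.gen _ _ _ (hu 1).symm huv (hv 1).symm),
      ← st_s12 x y (h.gen _ _ _ (hu 2).symm huv (hv 2).symm)]
  · show xch 1 _ _ _ = code x y (Function.update rt 1 u 0) (Function.update rt 1 u 1)
      (Function.update rt 1 u 2) v
    change xst 1 _ = st x y (Function.update rt 1 u 0) (Function.update rt 1 u 1)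
      (Function.update rt 1 u 2) at hx
    rw [Function.update_self, Function.update_of_ne (by decide),
      Function.update_of_ne (by decide)] at hx ⊢
    unfold xch code
    rw [hx, dg0_cixA, dg2_cixA, t1_tau, ← st_s12 x y (h.gen _ _ _ (hu 2).symm huv (hv 2).symm)]
  · show xch 2 _ _ _ = code x y (Function.update rt 2 u 0) (Function.update rt 2 u 1)
      (Function.update rt 2 u 2) v
    change xst 2 _ = st x y (Function.update rt 2 u 0) (Function.update rt 2 u 1)
      (Function.update rt 2 u 2) at hx
    rw [Function.update_self, Function.update_of_ne (by decide),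
      Function.update_of_ne (by decide)] at hx ⊢
    unfold xch code
    rw [hx, dg0_cixA, dg1_cixA, t2_tau]

theorem GN.cs12_eq (h : GN x y) {a b c d : ι} (h1 : a ≠ b) (h2 : a ≠ c) (h3 : a ≠ d) (h4 : b ≠ c)
    (h5 : b ≠ d) : code x y b a c d = cs12 (code x y a b c d) := by
  have k1 := st_lt x y a b c
  have k2 := st_lt x y a b d
  have k3 := st_lt x y a c d
  have k4 := st_lt x y b c d
  have d3 : code x y a b c d / 512 % 8 = st x y a b c := by unfold code; omega
  have d2 : code x y a b c d / 64 % 8 = st x y a b d := by unfold code; omega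
  have d1 : code x y a b c d / 8 % 8 = st x y a c d := by unfold code; omega
  have d0 : code x y a b c d % 8 = st x y b c d := by unfold code; omega
  unfold cs12
  rw [d3, d2, d1, d0, ← st_s12 x y (h.gen a b c h1 h4 h2), ← st_s12 x y (h.gen a b d h1 h5 h3)]
  rfl

theorem GN.cs23_eq (h : GN x y) {a b c d : ι} (h1 : a ≠ b) (h2 : a ≠ c) (h4 : b ≠ c)
    (h5 : b ≠ d) (h6 : c ≠ d) : code x y a c b d = cs23 (code x y a b c d) := by
  have k1 := st_lt x y a b c
  have k2 := st_lt x y a b d
  have k3 := st_lt x y a c d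
  have k4 := st_lt x y b c d
  have d3 : code x y a b c d / 512 % 8 = st x y a b c := by unfold code; omega
  have d2 : code x y a b c d / 64 % 8 = st x y a b d := by unfold code; omega
  have d1 : code x y a b c d / 8 % 8 = st x y a c d := by unfold code; omega
  have d0 : code x y a b c d % 8 = st x y b c d := by unfold code; omega
  unfold cs23
  rw [d3, d2, d1, d0, ← st_swap x y (h.gen a b c h1 h4 h2), ← st_s12 x y (h.gen b c d h4 h6 h5)]
  rfl

end

end Pool.Agent.AKG
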