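import Pool.Agent.AKG.LinkA
import Pool.Agent.AKW.Sym
import Pool.Agent.AKO.Root

set_option autoImplicit false

/-!
# Acute root triples that maximise a functional; exchange of one root
-/

namespace Pool.Agent.AKG

open Finset Classical Pool.Agent.AK Pool.Agent.AKU

section

variable {ι : Type*} {x y : ι → ℝ}

variable (x y) in
/-- the three points are different and form an acute triangle -/
def AcT (r : Fin 3 → ι) : Prop :=
  Function.Injective r ∧ st x y (r 0) (r 1) (r 2) % 4 = 0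

/-- first two / last two roots exchanged -/
def sw01 (r : Fin 3 → ι) : Fin 3 → ι := ![r 1, r 0, r 2]
def sw12 (r : Fin 3 → ι) : Fin 3 → ι := ![r 0, r 2, r 1]

theorem inj_iff (r : Fin 3 → ι) : Function.Injective r ↔ r 0 ≠ r 1 ∧ r 0 ≠ r 2 ∧ r 1 ≠ r 2 := by
  constructor
  · intro h
    exact ⟨fun e => by simpa using h e, fun e => by simpa using h e, fun e => by simpa using h e⟩
  · rintro ⟨h1, h2, h3⟩ i j h
    fin_cases i <;> fin_cases j
    all_goals first
      | rfl
      | exact absurd h h1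
      | exact absurd h h2
      | exact absurd h h3
      | exact absurd h.symm h1
      | exact absurd h.symm h2
      | exact absurd h.symm h3

theorem s12_mod (s : ℕ) (hs : s < 8) : s12 s % 4 = 0 ↔ s % 4 = 0 := by
  interval_cases s <;> decide

theorem rev_mod (s : ℕ) (hs : s < 8) : rev s % 4 = 0 ↔ s % 4 = 0 := by
  interval_cases s <;> decide

theorem AcT.sw01 (h : GN x y) {r : Fin 3 → ι} (hr : AcT x y r) : AcT x y (sw01 r) := by
  obtain ⟨h1, h2, h3⟩ := (inj_iff r).1 hr.1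
  refine ⟨(inj_iff _).2 ⟨h1.symm, h3, h2⟩, ?_⟩
  show st x y (r 1) (r 0) (r 2) % 4 = 0
  rw [st_s12 x y (h.gen _ _ _ h1 h3 h2), s12_mod _ (st_lt ..)]
  exact hr.2

theorem AcT.sw12 (h : GN x y) {r : Fin 3 → ι} (hr : AcT x y r) : AcT x y (sw12 r) := by
  obtain ⟨h1, h2, h3⟩ := (inj_iff r).1 hr.1
  refine ⟨(inj_iff _).2 ⟨h2, h1, h3.symm⟩, ?_⟩
  show st x y (r 0) (r 2) (r 1) % 4 = 0
  rw [st_swap x y (h.gen _ _ _ h1 h3 h2), rev_mod _ (st_lt ..)]
  exact hr.2

variable [Fintype ι]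

variable (x y) in
/-- the functional: sum of the weights of the codes of the other points -/
noncomputable def Ph (w : ℕ → ℤ) (r : Fin 3 → ι) : ℤ :=
  ∑ v, if ∀ k, v ≠ r k then w (code x y (r 0) (r 1) (r 2) v) else 0

/-- the weight does not depend on the order of the first three points -/
def InvW (w : ℕ → ℤ) : Prop :=
  ∀ k < 4096, TAB.testBit k = true → w (cs12 k) = w k ∧ w (cs23 k) = w k

theorem forall_fin3 {P : Fin 3 → Prop} : (∀ k, P k) ↔ P 0 ∧ P 1 ∧ P 2 := by
  constructor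
  · intro h
    exact ⟨h 0, h 1, h 2⟩
  · rintro ⟨h0, h1, h2⟩ k
    fin_cases k
    · exact h0
    · exact h1
    · exact h2

theorem Ph_sw01 (h : GN x y) {w : ℕ → ℤ} (hw : InvW w) {r : Fin 3 → ι}
    (hi : Function.Injective r) : Ph x y w (sw01 r) = Ph x y w r := by
  obtain ⟨h1, h2, h3⟩ := (inj_iff r).1 hi
  unfold Ph
  refine sum_congr rfl fun v _ => ?_
  have e : (∀ k, v ≠ sw01 r k) ↔ ∀ k, v ≠ r k := by
    rw [forall_fin3, forall_fin3]
    show (v ≠ r 1 ∧ v ≠ r 0 ∧ v ≠ r 2) ↔ _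
    tauto
  by_cases hv : ∀ k, v ≠ r k
  · rw [if_pos (e.2 hv), if_pos hv]
    show w (code x y (r 1) (r 0) (r 2) v) = _
    rw [h.cs12_eq h1 h2 (hv 0).symm h3 (hv 1).symm]
    exact (hw _ (code_lt x y _ _ _ _) (h.mem h1 h2 (hv 0).symm h3 (hv 1).symm (hv 2).symm)).1
  · rw [if_neg (fun g => hv (e.1 g)), if_neg hv]

theorem Ph_sw12 (h : GN x y) {w : ℕ → ℤ} (hw : InvW w) {r : Fin 3 → ι}
    (hi : Function.Injective r) : Ph x y w (sw12 r) = Ph x y w r := by
  obtain ⟨h1, h2, h3⟩ := (inj_iff r).1 hi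
  unfold Ph
  refine sum_congr rfl fun v _ => ?_
  have e : (∀ k, v ≠ sw12 r k) ↔ ∀ k, v ≠ r k := by
    rw [forall_fin3, forall_fin3]
    show (v ≠ r 0 ∧ v ≠ r 2 ∧ v ≠ r 1) ↔ _
    tauto
  by_cases hv : ∀ k, v ≠ r k
  · rw [if_pos (e.2 hv), if_pos hv]
    show w (code x y (r 0) (r 2) (r 1) v) = _
    rw [h.cs23_eq h1 h2 h3 (hv 1).symm (hv 2).symm]
    exact (hw _ (code_lt x y _ _ _ _) (h.mem h1 h2 (hv 0).symm h3 (hv 1).symm (hv 2).symm)).2
  · rw [if_neg (fun g => hv (e.1 g)), if_neg hv]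

variable (x y) in
/-- an acute counterclockwise root triple with the largest value of the functional -/
structure MaxT (w : ℕ → ℤ) (r : Fin 3 → ι) : Prop where
  inj : Function.Injective r
  st4 : st x y (r 0) (r 1) (r 2) = 4
  max : ∀ r', AcT x y r' → Ph x y w r' ≤ Ph x y w r

theorem exists_maxT (h : GN x y) {w : ℕ → ℤ} (hw : InvW w) (he : ∃ r, AcT x y r) :
    ∃ r, MaxT x y w r := by
  obtain ⟨r1, hr1⟩ := he
  have hne : ({r : Fin 3 → ι | AcT x y r} : Finset (Fin 3 → ι)).Nonempty :=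
    ⟨r1, mem_filter.2 ⟨mem_univ _, hr1⟩⟩
  obtain ⟨r, hr, hmax⟩ := exists_max_image _ (fun r => Ph x y w r) hne
  have hr' := (mem_filter.1 hr).2
  have hm : ∀ r', AcT x y r' → Ph x y w r' ≤ Ph x y w r :=
    fun r' h' => hmax r' (mem_filter.2 ⟨mem_univ _, h'⟩)
  have h8 := st_lt x y (r 0) (r 1) (r 2)
  have h4 := hr'.2
  by_cases g : st x y (r 0) (r 1) (r 2) = 4
  · exact ⟨r, hr'.1, g, hm⟩
  · have h0 : st x y (r 0) (r 1) (r 2) = 0 := by omega
    obtain ⟨h1, h2, h3⟩ := (inj_iff r).1 hr'.1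
    refine ⟨sw12 r, (hr'.sw12 h).1, ?_, ?_⟩
    · show st x y (r 0) (r 2) (r 1) = 4
      rw [st_swap x y (h.gen _ _ _ h1 h3 h2), h0]
      rfl
    · intro r' h'
      rw [Ph_sw12 h hw hr'.1]
      exact hm r' h'

omit [Fintype ι] in
theorem code_tau {r : Fin 3 → ι} (h4 : st x y (r 0) (r 1) (r 2) = 4) (v : ι) :
    code x y (r 0) (r 1) (r 2) v = 2048 + tau x y (r 0) (r 1) (r 2) v := by
  unfold code tau
  rw [h4]
  ring

/-- **Exchange of one root**: for a maximal triple, a point `u` and a root `k` such that the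
triangle with `u` in place of the root is acute. -/
theorem MaxT.exch (h : GN x y) {w : ℕ → ℤ} {C : ℤ} (hC : ∀ k, |w k| ≤ C)
    {r : Fin 3 → ι} (hr : MaxT x y w r) {u : ι} (hu : ∀ k, u ≠ r k) (k : Fin 3)
    (hk : xst k (tau x y (r 0) (r 1) (r 2) u) % 4 = 0) :
    ∑ v, (if (∀ k, v ≠ r k) ∧ u ≠ v then
      w (xch k (tau x y (r 0) (r 1) (r 2) u) (tau x y (r 0) (r 1) (r 2) v)
        (cixA x y (r 0) (r 1) (r 2) u v)) - w (2048 + tau x y (r 0) (r 1) (r 2) v) else 0) ≤
      2 * C := by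
  set r' : Fin 3 → ι := Function.update r k u with hr'
  have hinj : Function.Injective r' := by
    intro i j hij
    by_cases hi : i = k <;> by_cases hj : j = k
    · rw [hi, hj]
    · rw [hi, hr', Function.update_self, Function.update_of_ne hj] at hij
      exact absurd hij (hu j)
    · rw [hj, hr', Function.update_self, Function.update_of_ne hi] at hij
      exact absurd hij.symm (hu i)
    · rw [hr', Function.update_of_ne hi, Function.update_of_ne hj] at hij
      exact hr.inj hij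
  have hac : AcT x y r' := by
    refine ⟨hinj, ?_⟩
    rw [h.xst_eq hr.inj hu k] at hk
    exact hk
  have hmax := hr.max r' hac
  -- the two sums
  have e1 : ∀ v, (∀ j, v ≠ r' j) ↔ ((∀ j, j ≠ k → v ≠ r j) ∧ v ≠ u) := by
    intro v
    constructor
    · intro g
      refine ⟨fun j hj => ?_, ?_⟩
      · have := g j
        rwa [hr', Function.update_of_ne hj] at this
      · have := g k
        rwa [hr', Function.update_self] at this
    · rintro ⟨g1, g2⟩ j
      by_cases hj : j = k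
      · rw [hj, hr', Function.update_self]
        exact g2
      · rw [hr', Function.update_of_ne hj]
        exact g1 j hj
  set A : ι → ℤ := fun v => w (code x y (r' 0) (r' 1) (r' 2) v) with hA
  set B : ι → ℤ := fun v => w (code x y (r 0) (r 1) (r 2) v) with hB
  have s1 : Ph x y w r' = (∑ v, if (∀ j, v ≠ r j) ∧ u ≠ v then A v else 0) + A (r k) := by
    unfold Ph
    have hk2 : r k ∈ (univ : Finset ι) := mem_univ _
    rw [← add_sum_erase _ _ hk2, ← add_sum_erase (a := r k) _ _ hk2]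
    have a1 : (∀ j, r k ≠ r' j) := by
      rw [e1]
      exact ⟨fun j hj e => hj (hr.inj e).symm, (hu k).symm⟩
    have a2 : ¬ ((∀ j, r k ≠ r j) ∧ u ≠ r k) := fun g => g.1 k rfl
    rw [if_pos a1, if_neg a2, zero_add, add_comm]
    congr 1
    refine sum_congr rfl fun v hv => ?_
    have hvk : v ≠ r k := ne_of_mem_erase hv
    by_cases g : (∀ j, v ≠ r j) ∧ u ≠ v
    · rw [if_pos g, if_pos ((e1 v).2 ⟨fun j _ => g.1 j, g.2.symm⟩)]
    · rw [if_neg g, if_neg]
      intro g2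
      obtain ⟨g3, g4⟩ := (e1 v).1 g2
      refine g ⟨fun j => ?_, g4.symm⟩
      by_cases hj : j = k
      · rw [hj]; exact hvk
      · exact g3 j hj
  have s2 : Ph x y w r = (∑ v, if (∀ j, v ≠ r j) ∧ u ≠ v then B v else 0) + B u := by
    unfold Ph
    have hk2 : u ∈ (univ : Finset ι) := mem_univ _
    rw [← add_sum_erase _ _ hk2, ← add_sum_erase (a := u) _ _ hk2]
    have a2 : ¬ ((∀ j, u ≠ r j) ∧ u ≠ u) := fun g => g.2 rfl
    rw [if_pos hu, if_neg a2, zero_add, add_comm]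
    congr 1
    refine sum_congr rfl fun v hv => ?_
    have hvk : v ≠ u := ne_of_mem_erase hv
    by_cases g : ∀ j, v ≠ r j
    · rw [if_pos g, if_pos ⟨g, hvk.symm⟩]
    · rw [if_neg g, if_neg (fun g2 => g g2.1)]
  have s3 : ∑ v, (if (∀ k, v ≠ r k) ∧ u ≠ v then
      w (xch k (tau x y (r 0) (r 1) (r 2) u) (tau x y (r 0) (r 1) (r 2) v)
        (cixA x y (r 0) (r 1) (r 2) u v)) - w (2048 + tau x y (r 0) (r 1) (r 2) v) else 0) =
      (∑ v, if (∀ j, v ≠ r j) ∧ u ≠ v then A v else 0) -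
        ∑ v, if (∀ j, v ≠ r j) ∧ u ≠ v then B v else 0 := by
    rw [← sum_sub_distrib]
    refine sum_congr rfl fun v _ => ?_
    by_cases g : (∀ j, v ≠ r j) ∧ u ≠ v
    · rw [if_pos g, if_pos g, if_pos g, h.xch_eq hr.inj hu g.1 g.2 k, ← code_tau hr.st4]
    · rw [if_neg g, if_neg g, if_neg g]
      rfl
  rw [s3]
  have b1 := abs_le.1 (hC (code x y (r' 0) (r' 1) (r' 2) (r k)))
  have b2 := abs_le.1 (hC (code x y (r 0) (r 1) (r 2) u))
  have b3 : A (r k) = w (code x y (r' 0) (r' 1) (r' 2) (r k)) := rfl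
  have b4 : B u = w (code x y (r 0) (r 1) (r 2) u) := rfl
  rw [s1, s2] at hmax
  linarith [b1.1, b1.2, b2.1, b2.2]

end

/-! ### types and pair codes -/

section

variable {ι : Type*} {x y : ι → ℝ}

/-- all states of a free point -/
def TypesOk (tcs : List ℕ) : Prop :=
  ∀ t < 512, TAB.testBit (2048 + t) = true → t ∈ tcs

/-- the tests of a pair of free points -/
def pairT (p q s : ℕ) : Bool :=
  TAB.testBit (512 * dg2 p + 64 * dg2 q + 8 * dg0 s + dg1 s) &&
  TAB.testBit (512 * dg1 p + 64 * dg1 q + 8 * dg0 s + dg2 s) &&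
  TAB.testBit (512 * dg0 p + 64 * dg0 q + 8 * dg1 s + dg2 s)

theorem dg0_tau (a b c u : ι) : dg0 (tau x y a b c u) = st x y b c u := t0_tau a b c u

theorem dg1_tau (a b c u : ι) : dg1 (tau x y a b c u) = st x y a c u := by
  rw [← t1_tau (x := x) (y := y) a b c u]
  unfold dg1 t1
  rw [Nat.shiftRight_eq_div_pow]

theorem dg2_tau (a b c u : ι) : dg2 (tau x y a b c u) = st x y a b u := by
  rw [← t2_tau (x := x) (y := y) a b c u]
  have := tau_lt' (x := x) (y := y) a b c u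
  unfold dg2 t2
  rw [Nat.shiftRight_eq_div_pow]
  omega

/-- index of the state of a free point -/
noncomputable def tixA (tcs : List ℕ) (x y : ι → ℝ) (a b c u : ι) : ℕ :=
  tcs.idxOf (tau x y a b c u)

theorem tau_mem' (h : GN x y) {tcs : List ℕ} (ht : TypesOk tcs) {r : Fin 3 → ι}
    (hi : Function.Injective r) (h4 : st x y (r 0) (r 1) (r 2) = 4) {u : ι}
    (hu : ∀ k, u ≠ r k) : tau x y (r 0) (r 1) (r 2) u ∈ tcs := by
  obtain ⟨h1, h2, h3⟩ := (inj_iff r).1 hi
  refine ht _ (tau_lt' ..) ?_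
  rw [← code_tau h4]
  exact h.mem h1 h2 (hu 0).symm h3 (hu 1).symm (hu 2).symm

theorem tixA_lt (h : GN x y) {tcs : List ℕ} (ht : TypesOk tcs) {r : Fin 3 → ι}
    (hi : Function.Injective r) (h4 : st x y (r 0) (r 1) (r 2) = 4) {u : ι}
    (hu : ∀ k, u ≠ r k) : tixA tcs x y (r 0) (r 1) (r 2) u < tcs.length :=
  List.idxOf_lt_length_of_mem (tau_mem' h ht hi h4 hu)

theorem getD_tixA (h : GN x y) {tcs : List ℕ} (ht : TypesOk tcs) {r : Fin 3 → ι}
    (hi : Function.Injective r) (h4 : st x y (r 0) (r 1) (r 2) = 4) {u : ι}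
    (hu : ∀ k, u ≠ r k) (d : ℕ) :
    tcs.getD (tixA tcs x y (r 0) (r 1) (r 2) u) d = tau x y (r 0) (r 1) (r 2) u := by
  have h1 := tixA_lt h ht hi h4 hu
  rw [List.getD_eq_getElem _ _ h1]
  exact List.getElem_idxOf h1

theorem pairT_ok (h : GN x y) {r : Fin 3 → ι} (hi : Function.Injective r) {u v : ι}
    (hu : ∀ k, u ≠ r k) (hv : ∀ k, v ≠ r k) (huv : u ≠ v) :
    pairT (tau x y (r 0) (r 1) (r 2) u) (tau x y (r 0) (r 1) (r 2) v)
      (cixA x y (r 0) (r 1) (r 2) u v) = true := by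
  obtain ⟨h1, h2, h3⟩ := (inj_iff r).1 hi
  have c1 := h.mem h1 (hu 0).symm (hv 0).symm (hu 1).symm (hv 1).symm huv
  have c2 := h.mem h2 (hu 0).symm (hv 0).symm (hu 2).symm (hv 2).symm huv
  have c3 := h.mem h3 (hu 1).symm (hv 1).symm (hu 2).symm (hv 2).symm huv
  unfold pairT
  rw [dg0_tau, dg0_tau, dg1_tau, dg1_tau, dg2_tau, dg2_tau, dg0_cixA, dg1_cixA, dg2_cixA]
  have e : ∀ p q s t : ℕ, 512 * p + 64 * q + 8 * s + t = ((p * 8 + q) * 8 + s) * 8 + t := by
    intro p q s t; ring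
  rw [e, e, e]
  unfold code at c1 c2 c3
  rw [c1, c2, c3]
  rfl

theorem na_st' (u v w : ι) : (na (st x y u v w) : ℝ) = if NAc x y u v w then 1 else 0 := by
  unfold na
  by_cases h : NAc x y u v w
  · rw [if_pos h, if_neg ((NAc_iff x y).1 h)]
    norm_num
  · rw [if_neg h]
    have : st x y u v w % 4 = 0 := by
      by_contra h2
      exact h ((NAc_iff x y).2 h2)
    rw [if_pos this]
    norm_num

theorem na_st_eq {u v w u' v' w' : ι} (h : NAc x y u v w ↔ NAc x y u' v' w') :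
    na (st x y u v w) = na (st x y u' v' w') := by
  have h1 : (na (st x y u v w) : ℝ) = na (st x y u' v' w') := by
    rw [na_st', na_st']
    simp only [h]
  exact_mod_cast h1

/-- **The configuration of the free points** -/
theorem cfA (h : GN x y) {tcs : List ℕ} (ht : TypesOk tcs) {r : Fin 3 → ι}
    (hi : Function.Injective r) (h4 : st x y (r 0) (r 1) (r 2) = 4) (T : AKW.Tb)
    (hT : T.TAB = TAB) (d : ℕ)
    (hvp : ∀ p < tcs.length, ∀ q < tcs.length, ∀ s < 512,
      pairT (tcs.getD p d) (tcs.getD q d) s = true → T.vp p q s = true) :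
    T.Cf tcs.length (tixA tcs x y (r 0) (r 1) (r 2)) (cixA x y (r 0) (r 1) (r 2)) (st x y)
      {u | ∀ k, u ≠ r k} where
  ty := fun u hu => tixA_lt h ht hi h4 hu
  lt := fun u _ v _ _ => cixA_lt ..
  vp := by
    intro u hu v hv huv
    refine hvp _ (tixA_lt h ht hi h4 hu) _ (tixA_lt h ht hi h4 hv) _ (cixA_lt ..) ?_
    rw [getD_tixA h ht hi h4 hu, getD_tixA h ht hi h4 hv]
    exact pairT_ok h hi hu hv huv
  rv := by
    intro u hu v hv huv
    have c0 := h.gen (r 0) u v (hu 0).symm huv (hv 0).symm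
    have c1 := h.gen (r 1) u v (hu 1).symm huv (hv 1).symm
    have c2 := h.gen (r 2) u v (hu 2).symm huv (hv 2).symm
    have e : ∀ s < 8, rvd s = rev s := by
      intro s hs
      interval_cases s <;> decide
    unfold rv3
    rw [dg0_cixA, dg1_cixA, dg2_cixA, e _ (st_lt ..), e _ (st_lt ..), e _ (st_lt ..)]
    unfold cixA
    rw [st_swap x y c0, st_swap x y c1, st_swap x y c2]
  dlt := fun u _ v _ w _ _ _ _ => st_lt x y u v w
  tst := by
    intro u hu v hv w hw huv hvw huw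
    have g0 := h.mem (hu 0).symm (hv 0).symm (hw 0).symm huv huw hvw
    have g1 := h.mem (hu 1).symm (hv 1).symm (hw 1).symm huv huw hvw
    have g2 := h.mem (hu 2).symm (hv 2).symm (hw 2).symm huv huw hvw
    unfold AKW.Tb.tst
    rw [hT, dg0_cixA, dg0_cixA, dg0_cixA, dg1_cixA, dg1_cixA, dg1_cixA, dg2_cixA, dg2_cixA,
      dg2_cixA]
    have e : ∀ p q s t : ℕ, 512 * p + 64 * q + 8 * s + t = ((p * 8 + q) * 8 + s) * 8 + t := by
      intro p q s t; ring
    rw [e, e, e]
    unfold code at g0 g1 g2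
    rw [g0, g1, g2]
    rfl
  na1 := by
    intro u hu v hv w hw huv hvw huw
    refine na_st_eq ?_
    unfold NAc
    rw [dt_comm x y u w v]
    tauto
  na2 := by
    intro u hu v hv w hw huv hvw huw
    refine na_st_eq ?_
    unfold NAc
    constructor
    · rintro (k | k | k)
      · exact Or.inr (Or.inl k)
      · exact Or.inl k
      · exact Or.inr (Or.inr (by rw [dt_comm]; exact k))
    · rintro (k | k | k)
      · exact Or.inr (Or.inl k)
      · exact Or.inl k
      · exact Or.inr (Or.inr (by rw [dt_comm]; exact k))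

end

end Pool.Agent.AKG
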