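import Pool.Agent.AKO.Root

set_option autoImplicit false

/-!
# Rooted certificates with the second order inequality
-/

namespace Pool.Agent.AKG

open Finset Classical Filter Topology Pool.Agent.MP_0af329_co Pool.Agent.AK Pool.Agent.AKO
  EuclideanGeometry

/-- nearly optimal sets, with the second order inequality -/
structure Near2 (S : Finset Pt) (η : ℝ) : Prop extends Near S η where
  sec : ∀ f : S → ℝ, (∀ x, |f x| ≤ 1) →
    3 * dens (Set.Ici (Real.pi / 2)) * (Fintype.card S : ℝ) * (∑ x, f x) ^ 2 -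
      η * (Fintype.card S : ℝ) ^ 3 ≤ ∑ u, ∑ v, (∑ t, Nf S u v t) * (f u * f v)

/-- the codegree as a sum of indicators -/
theorem sum_Nf_cod (S : Finset Pt) (u v : S) :
    ∑ t, Nf S u v t = if u.1 ≠ v.1 then (cod S u.1 v.1 : ℝ) else 0 := by
  by_cases h : u = v
  · subst h
    rw [if_neg (not_not.2 rfl)]
    refine sum_eq_zero fun t _ => ?_
    unfold Nf
    rw [if_neg (fun h => h.1 rfl)]
  · have h' : u.1 ≠ v.1 := fun e => h (Subtype.ext e)
    rw [if_pos h']
    unfold cod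
    rw [card_filter, ← sum_coe_sort S]
    push_cast
    refine sum_congr rfl fun t _ => ?_
    unfold Nf
    by_cases h1 : v = t
    · subst h1
      simp
    by_cases h2 : u = t
    · subst h2
      simp
    have h1' : v.1 ≠ t.1 := fun e => h1 (Subtype.ext e)
    have h2' : u.1 ≠ t.1 := fun e => h2 (Subtype.ext e)
    have e : NA (X S) (Y S) u v t ↔ NAc u.1 v.1 t.1 := by
      unfold NA NAc Nac
      have a1 := angle_ge_iff S v u t (fun e => h e) (fun e => h1 e.symm)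
      have a2 := angle_ge_iff S t v u (fun e => h1 e) (fun e => h2 e)
      have a3 := angle_ge_iff S u t v (fun e => h2 e.symm) (fun e => h e.symm)
      rw [a1, a2, a3, dt_symm (X S) (Y S) t v u, dt_symm (X S) (Y S) u t v]
      tauto
    by_cases h3 : NAc u.1 v.1 t.1
    · rw [if_pos ⟨h, h1, h2, e.2 h3⟩, if_pos ⟨h1', h2', h3⟩]
    · rw [if_neg (fun h4 => h3 (e.1 h4.2.2.2)), if_neg (fun h4 => h3 h4.2.2)]

theorem exists_Near2 (η : ℝ) (hη : 0 < η) (n0 : ℕ) :
    ∃ S : Finset Pt, Near2 S η ∧ n0 ≤ Fintype.card S := by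
  obtain ⟨S, h1, h2, h3, h4, h5, h6, h7⟩ := exists_near (η / 3) (by positivity) n0
  refine ⟨S, ⟨⟨h1, h2, ?_, ?_⟩, ?_⟩, by rwa [Fintype.card_coe]⟩
  · intro v
    rw [sum_Nf, Fintype.card_coe, abs_le]
    have a1 := h5 v.1 v.2
    have a2 := h6 v.1 v.2
    constructor <;> nlinarith
  · rw [Fintype.card_coe]
    refine h4.trans (mul_le_mul_of_nonneg_right (by linarith) (by positivity))
  · intro f hf
    set f' : Pt → ℝ := fun x => if h : x ∈ S then f ⟨x, h⟩ else 0 with hf'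
    have e0 : ∀ x : S, f' x.1 = f x := fun x => by
      simp only [hf']
      rw [dif_pos x.2]
    have key := h7 f' (fun x hx => by
      have := hf ⟨x, hx⟩
      rw [← e0 ⟨x, hx⟩] at this
      exact this)
    have e1 : ∑ x ∈ S, f' x = ∑ x, f x := by
      rw [← sum_coe_sort S]
      exact sum_congr rfl fun x _ => e0 x
    have e2 : (∑ u ∈ S, ∑ v ∈ S, if u ≠ v then (cod S u v : ℝ) * (f' u * f' v) else 0) =
        ∑ u, ∑ v, (∑ t, Nf S u v t) * (f u * f v) := by
      rw [← sum_coe_sort S]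
      refine sum_congr rfl fun u _ => ?_
      rw [← sum_coe_sort S]
      refine sum_congr rfl fun v _ => ?_
      rw [sum_Nf_cod, e0, e0]
      split_ifs <;> simp
    rw [e1, e2] at key
    rw [Fintype.card_coe]
    have h8 : (0 : ℝ) ≤ (S.card : ℝ) ^ 3 := by positivity
    nlinarith

/-- **The limit**: if for all nearly optimal `S` the deficit is small, then `4/27 ≤ F(π/2)`. -/
theorem F_ge_of_Near2 (C M : ℝ) (n0 : ℕ)
    (h : ∀ η > 0, η ≤ 1 → ∀ S : Finset Pt, Near2 S η → n0 ≤ Fintype.card S →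
      3 * dens (Set.Ici (Real.pi / 2)) < 4 / 9 →
      (4 / 9 - 3 * dens (Set.Ici (Real.pi / 2))) * (Fintype.card S : ℝ) ^ 3 ≤
        M * η * (Fintype.card S : ℝ) ^ 3 + C * (Fintype.card S : ℝ) ^ 2) :
    4 / 27 ≤ F (Real.pi / 2) := by
  refine le_trans ?_ dens_Ici_le
  by_contra hcon
  push Not at hcon
  set D : ℝ := dens (Set.Ici (Real.pi / 2)) with hD
  set t : ℝ := 4 / 9 - 3 * D with ht
  have ht0 : 0 < t := by linarith
  set M' : ℝ := max M 1 with hM'
  have hM1 : 1 ≤ M' := le_max_right _ _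
  have hMM : M ≤ M' := le_max_left _ _
  set C' : ℝ := max C 1 with hC'
  have hC1 : 1 ≤ C' := le_max_right _ _
  have hCC : C ≤ C' := le_max_left _ _
  set η : ℝ := min 1 (t / (4 * M')) with hη
  have hη0 : 0 < η := lt_min one_pos (by positivity)
  have hη1 : η ≤ 1 := min_le_left _ _
  have hηt : M' * η ≤ t / 4 := by
    have : η ≤ t / (4 * M') := min_le_right _ _
    calc M' * η ≤ M' * (t / (4 * M')) := mul_le_mul_of_nonneg_left this (by linarith)
      _ = t / 4 := by field_simp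
  obtain ⟨n1, hn1⟩ := exists_nat_gt (4 * C' / t)
  obtain ⟨S, hS, hcard⟩ := exists_Near2 η hη0 (max n0 (max n1 1))
  have a0 : n0 ≤ Fintype.card S := le_trans (le_max_left _ _) hcard
  have a1 : n1 ≤ Fintype.card S :=
    le_trans (le_trans (le_max_left _ _) (le_max_right _ _)) hcard
  have a2 : 1 ≤ Fintype.card S :=
    le_trans (le_trans (le_max_right _ _) (le_max_right _ _)) hcard
  have h1 := h η hη0 hη1 S hS a0 (by linarith)
  set n : ℝ := (Fintype.card S : ℝ) with hn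
  have hn1' : (1 : ℝ) ≤ n := by
    rw [hn]
    exact_mod_cast a2
  have hn2 : 4 * C' / t < n := lt_of_lt_of_le hn1 (by rw [hn]; exact_mod_cast a1)
  rw [div_lt_iff₀ ht0] at hn2
  have h2 : C * n ^ 2 ≤ t / 4 * n ^ 3 := by
    have : C * n ^ 2 ≤ C' * n ^ 2 := mul_le_mul_of_nonneg_right hCC (by positivity)
    have h3 : C' * n ^ 2 ≤ (n * t / 4) * n ^ 2 :=
      mul_le_mul_of_nonneg_right (by linarith) (by positivity)
    calc C * n ^ 2 ≤ C' * n ^ 2 := this
      _ ≤ (n * t / 4) * n ^ 2 := h3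
      _ = t / 4 * n ^ 3 := by ring
  have h4 : M * η * n ^ 3 ≤ t / 4 * n ^ 3 := by
    refine mul_le_mul_of_nonneg_right ?_ (by positivity)
    exact (mul_le_mul_of_nonneg_right hMM hη0.le).trans hηt
  have h5 : 0 < t * n ^ 3 := by positivity
  linarith

section certK

variable {ι R : Type*} [Fintype ι] [Fintype R]

/-- the certificate function with the second order part `Z` -/
def GK (c : ℝ) (rt : R → ι) (N : ι → ι → ι → ℝ) (u : ι → ℝ) (w : R → ι → ℝ)
    (P : ι → ι → ℝ) (T : ι → ι → ι → ℝ) (Z : ι → ι → ℝ) (y1 y2 y3 : ι) : ℝ :=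
  GG c rt N u w P T y1 y2 y3 + Z y1 y2 * (N y1 y2 y3 - c)

/-- **Rooted certificate with second order part**: all degrees are `lam n² ± η n²`, the codegree
form satisfies `Σ Z (cod - lam n) ≥ - CZ η n³`, and `Σ ((W a + W b)/2 - Z a b) ≥ c0 n²` for
`W = u + Σ w`. -/
theorem cert_boundK (c lam η M B c0 CZ : ℝ) (rt : R → ι) (N : ι → ι → ι → ℝ) (u : ι → ℝ)
    (w : R → ι → ℝ) (P : ι → ι → ℝ) (T : ι → ι → ι → ℝ) (Z : ι → ι → ℝ)
    (E : Finset (ι × ι × ι))
    (hη : 0 ≤ η) (hlam : lam ≤ c)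
    (hdeg : ∀ v, |∑ p, ∑ q, N v p q - lam * (Fintype.card ι : ℝ) ^ 2| ≤
      η * (Fintype.card ι : ℝ) ^ 2)
    (hlow : c0 * (Fintype.card ι : ℝ) ^ 2 ≤
      (Fintype.card ι : ℝ) * ∑ a, (u a + ∑ r, w r a) - ∑ a, ∑ b, Z a b)
    (hup : ∀ y, |u y| + ∑ r, |w r y| ≤ M)
    (hP : 0 ≤ ∑ a, ∑ b, P a b) (hT : ∀ a, 0 ≤ ∑ b, ∑ d, T a b d)
    (hZ : -(CZ * η * (Fintype.card ι : ℝ) ^ 3) ≤
      ∑ a, ∑ b, Z a b * (∑ t, N a b t - lam * (Fintype.card ι : ℝ)))
    (hE : ∀ a b d, (a, b, d) ∉ E → sym3 (GK c rt N u w P T Z) a b d ≤ 0)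
    (hB : ∀ a b d, (a, b, d) ∈ E → sym3 (GK c rt N u w P T Z) a b d ≤ B) :
    (c - lam) * c0 * (Fintype.card ι : ℝ) ^ 3 ≤
      (M + CZ) * η * (Fintype.card ι : ℝ) ^ 3 + B * (E.card : ℝ) / 6 := by
  set n : ℝ := (Fintype.card ι : ℝ) with hn
  have hn0 : 0 ≤ n := Nat.cast_nonneg _
  -- upper bound
  have hup' : ∑ a, ∑ b, ∑ d, sym3 (GK c rt N u w P T Z) a b d ≤ B * (E.card : ℝ) := by
    have h1 : ∑ a, ∑ b, ∑ d, sym3 (GK c rt N u w P T Z) a b d =
        ∑ t : ι × ι × ι, sym3 (GK c rt N u w P T Z) t.1 t.2.1 t.2.2 := by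
      rw [Fintype.sum_prod_type]
      refine sum_congr rfl fun a _ => ?_
      rw [Fintype.sum_prod_type]
    rw [h1]
    have h2 : ∀ t : ι × ι × ι, sym3 (GK c rt N u w P T Z) t.1 t.2.1 t.2.2 ≤
        if t ∈ E then B else 0 := by
      rintro ⟨a, b, d⟩
      split_ifs with h
      · exact hB a b d h
      · exact hE a b d h
    refine (sum_le_sum fun t _ => h2 t).trans (le_of_eq ?_)
    rw [sum_ite_mem, univ_inter, sum_const, nsmul_eq_mul]
    ring
  -- lower bound
  have hlow' : ((c - lam) * c0 - (M + CZ) * η) * n ^ 3 ≤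
      ∑ a, ∑ b, ∑ d, GK c rt N u w P T Z a b d := by
    have hN : ∀ v, ∑ b : ι, ∑ d : ι, (c - N v b d) = c * n ^ 2 - ∑ b, ∑ d, N v b d := by
      intro v
      simp only [sum_sub_distrib, sum_const, card_univ, nsmul_eq_mul]
      rw [← hn]
      ring
    have h1 : ∀ a, ∑ b, ∑ d, GG c rt N u w P T a b d =
        u a * (c * n ^ 2 - ∑ b, ∑ d, N a b d) +
        ∑ r, w r a * (c * n ^ 2 - ∑ b, ∑ d, N (rt r) b d) + n * ∑ b, P a b +
        ∑ b, ∑ d, T a b d := by
      intro a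
      unfold GG
      simp only [sum_add_distrib]
      congr 1
      congr 1
      · congr 1
        · rw [← hN, mul_sum]
          exact sum_congr rfl fun b _ => by rw [mul_sum]
        · have : ∀ b : ι, ∑ d : ι, ∑ r, w r a * (c - N (rt r) b d) =
              ∑ r, ∑ d : ι, w r a * (c - N (rt r) b d) := fun b => sum_comm
          rw [sum_congr rfl fun b _ => this b, sum_comm]
          refine sum_congr rfl fun r _ => ?_
          rw [← hN, mul_sum]
          exact sum_congr rfl fun b _ => by rw [mul_sum]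
      · rw [mul_sum]
        refine sum_congr rfl fun b _ => ?_
        rw [sum_const, card_univ, nsmul_eq_mul]
    have h2 : ∀ a, (c - lam) * n ^ 2 * (u a + ∑ r, w r a) - M * η * n ^ 2 + n * ∑ b, P a b ≤
        ∑ b, ∑ d, GG c rt N u w P T a b d := by
      intro a
      rw [h1 a]
      have k1 : ∀ (z : ℝ) (v : ι), z * (c - lam) * n ^ 2 - |z| * (η * n ^ 2) ≤
          z * (c * n ^ 2 - ∑ b, ∑ d, N v b d) := by
        intro z v
        have e1 : z * (c * n ^ 2 - ∑ b, ∑ d, N v b d) = z * (c - lam) * n ^ 2 -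
            z * (∑ b, ∑ d, N v b d - lam * n ^ 2) := by ring
        have e2 : z * (∑ b, ∑ d, N v b d - lam * n ^ 2) ≤ |z| * (η * n ^ 2) := by
          refine (le_abs_self _).trans ?_
          rw [abs_mul]
          exact mul_le_mul_of_nonneg_left (hdeg v) (abs_nonneg _)
        rw [e1]
        linarith
      have k2 := k1 (u a) a
      have k3 : ∑ r, (w r a * (c - lam) * n ^ 2 - |w r a| * (η * n ^ 2)) ≤
          ∑ r, w r a * (c * n ^ 2 - ∑ b, ∑ d, N (rt r) b d) :=
        sum_le_sum fun r _ => k1 (w r a) (rt r)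
      rw [sum_sub_distrib, ← sum_mul, ← sum_mul, ← sum_mul] at k3
      have k4 := hT a
      have k6 : (|u a| + ∑ r, |w r a|) * (η * n ^ 2) ≤ M * (η * n ^ 2) :=
        mul_le_mul_of_nonneg_right (hup a) (mul_nonneg hη (sq_nonneg n))
      have k7 : (c - lam) * n ^ 2 * (u a + ∑ r, w r a) =
          u a * (c - lam) * n ^ 2 + (∑ r, w r a) * (c - lam) * n ^ 2 := by ring
      have k8 : (|u a| + ∑ r, |w r a|) * (η * n ^ 2) =
          |u a| * (η * n ^ 2) + (∑ r, |w r a|) * (η * n ^ 2) := by ring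
      rw [k7]
      rw [k8] at k6
      linarith
    have h3 := sum_le_sum fun a (_ : a ∈ (univ : Finset ι)) => h2 a
    rw [sum_add_distrib, sum_sub_distrib, sum_const, card_univ, nsmul_eq_mul, ← hn,
      ← mul_sum, ← mul_sum] at h3
    have h4 : 0 ≤ n * ∑ a, ∑ b, P a b := mul_nonneg hn0 hP
    -- the second order part
    have h5 : ∑ a, ∑ b, ∑ d, Z a b * (N a b d - c) =
        ∑ a, ∑ b, Z a b * (∑ t, N a b t - lam * n) - (c - lam) * n * ∑ a, ∑ b, Z a b := by
      have e1 : ∀ a b, ∑ d, Z a b * (N a b d - c) =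
          Z a b * (∑ t, N a b t - lam * n) - (c - lam) * n * Z a b := by
        intro a b
        rw [← mul_sum, sum_sub_distrib, sum_const, card_univ, nsmul_eq_mul, ← hn]
        ring
      simp only [e1, sum_sub_distrib, ← mul_sum]
    have h6 : ∑ a, ∑ b, ∑ d, GK c rt N u w P T Z a b d =
        ∑ a, ∑ b, ∑ d, GG c rt N u w P T a b d + ∑ a, ∑ b, ∑ d, Z a b * (N a b d - c) := by
      unfold GK
      simp only [sum_add_distrib]
    rw [h6, h5]
    have h7 : (c - lam) * n * (c0 * n ^ 2) ≤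
        (c - lam) * n * (n * ∑ a, (u a + ∑ r, w r a) - ∑ a, ∑ b, Z a b) :=
      mul_le_mul_of_nonneg_left hlow (mul_nonneg (by linarith) hn0)
    have e : ((c - lam) * c0 - (M + CZ) * η) * n ^ 3 =
        (c - lam) * n * (c0 * n ^ 2) - M * η * n ^ 3 - CZ * η * n ^ 3 := by ring
    have e2 : (c - lam) * n * (n * ∑ a, (u a + ∑ r, w r a) - ∑ a, ∑ b, Z a b) =
        (c - lam) * n ^ 2 * ∑ a, (u a + ∑ r, w r a) - (c - lam) * n * ∑ a, ∑ b, Z a b := by ring
    have e3 : n * (M * η * n ^ 2) = M * η * n ^ 3 := by ring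
    rw [e]
    rw [e2] at h7
    rw [e3] at h3
    linarith
  rw [sum_sym3] at hup'
  have e : ((c - lam) * c0 - (M + CZ) * η) * n ^ 3 =
      (c - lam) * c0 * n ^ 3 - (M + CZ) * η * n ^ 3 := by ring
  rw [e] at hlow'
  linarith

/-- entrywise form of the condition on the multipliers -/
theorem low_of_entry (c0 : ℝ) (W : ι → ℝ) (Z : ι → ι → ℝ)
    (h : ∀ a b, c0 ≤ (W a + W b) / 2 - Z a b) :
    c0 * (Fintype.card ι : ℝ) ^ 2 ≤ (Fintype.card ι : ℝ) * ∑ a, W a - ∑ a, ∑ b, Z a b := by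
  have h1 : ∑ _a : ι, ∑ _b : ι, c0 ≤ ∑ a, ∑ b, ((W a + W b) / 2 - Z a b) :=
    sum_le_sum fun a _ => sum_le_sum fun b _ => h a b
  simp only [sum_sub_distrib, ← sum_div, sum_add_distrib, sum_const, card_univ,
    nsmul_eq_mul, ← mul_sum] at h1
  nlinarith

end certK

end Pool.Agent.AKG
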