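import Pool.Agent.AKG.NearK

set_option autoImplicit false

/-!
# The second order part from a positive semidefinite integer matrix on the types
-/

namespace Pool.Agent.AKG

open Finset Classical Filter Topology Pool.Agent.MP_0af329_co Pool.Agent.AK Pool.Agent.AKO
  EuclideanGeometry

/-- an integer matrix which is nonnegative at integer vectors is positive semidefinite -/
theorem psd_real (m : ℕ) (Z : ℕ → ℕ → ℤ)
    (h : ∀ z : ℕ → ℤ, 0 ≤ ∑ a ∈ range m, ∑ b ∈ range m, Z a b * (z a * z b)) (z : ℕ → ℝ) :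
    0 ≤ ∑ a ∈ range m, ∑ b ∈ range m, (Z a b : ℝ) * (z a * z b) := by
  set g : ℕ → ℕ → ℤ := fun N a => (⌊max (z a) 0 * (N : ℝ)⌋₊ : ℤ) - (⌊max (-z a) 0 * (N : ℝ)⌋₊ : ℤ)
    with hg
  have ht : ∀ a, Tendsto (fun N : ℕ => (g N a : ℝ) / (N : ℝ)) atTop (𝓝 (z a)) := by
    intro a
    have h1 := (tendsto_nat_floor_mul_div_atTop (R := ℝ) (le_max_right (z a) 0)).comp
      tendsto_natCast_atTop_atTop
    have h2 := (tendsto_nat_floor_mul_div_atTop (R := ℝ) (le_max_right (-z a) 0)).comp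
      tendsto_natCast_atTop_atTop
    have h3 := h1.sub h2
    have e : max (z a) 0 - max (-z a) 0 = z a := by
      rcases le_total 0 (z a) with h4 | h4
      · rw [max_eq_left h4, max_eq_right (by linarith)]
        ring
      · rw [max_eq_right h4, max_eq_left (by linarith)]
        ring
    rw [e] at h3
    refine h3.congr fun N => ?_
    simp only [Function.comp, hg]
    push_cast
    ring
  have ht2 : Tendsto (fun N : ℕ => ∑ a ∈ range m, ∑ b ∈ range m, (Z a b : ℝ) *
      (((g N a : ℝ) / (N : ℝ)) * ((g N b : ℝ) / (N : ℝ)))) atTop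
      (𝓝 (∑ a ∈ range m, ∑ b ∈ range m, (Z a b : ℝ) * (z a * z b))) :=
    tendsto_finset_sum _ fun a _ => tendsto_finset_sum _ fun b _ =>
      ((ht a).mul (ht b)).const_mul _
  refine ge_of_tendsto' ht2 fun N => ?_
  have e : ∑ a ∈ range m, ∑ b ∈ range m, (Z a b : ℝ) *
      (((g N a : ℝ) / (N : ℝ)) * ((g N b : ℝ) / (N : ℝ))) =
      ((∑ a ∈ range m, ∑ b ∈ range m, Z a b * (g N a * g N b) : ℤ) : ℝ) * (1 / (N : ℝ) ^ 2) := by
    push_cast
    rw [sum_mul]
    refine sum_congr rfl fun a _ => ?_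
    rw [sum_mul]
    refine sum_congr rfl fun b _ => ?_
    ring
  rw [e]
  have h5 : (0 : ℝ) ≤ ((∑ a ∈ range m, ∑ b ∈ range m, Z a b * (g N a * g N b) : ℤ) : ℝ) := by
    exact_mod_cast h (g N)
  positivity

/-- **The second order part.**  `Z` is a symmetric integer matrix on the types, nonnegative at
integer vectors and zero outside the types. -/
theorem exists_CZ (m : ℕ) (Z : ℕ → ℕ → ℤ) (hs : ∀ a b, Z a b = Z b a)
    (h0 : ∀ a b, ¬ (a < m ∧ b < m) → Z a b = 0)
    (h : ∀ z : ℕ → ℤ, 0 ≤ ∑ a ∈ range m, ∑ b ∈ range m, Z a b * (z a * z b)) :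
    ∃ CZ : ℝ, 0 ≤ CZ ∧ ∀ (S : Finset Pt) (η : ℝ), Near2 S η → 0 ≤ η → ∀ τ : S → ℕ,
      -(CZ * η * (Fintype.card S : ℝ) ^ 3) ≤
        ∑ u, ∑ v, (Z (τ u) (τ v) : ℝ) * (∑ t, Nf S u v t -
          3 * dens (Set.Ici (Real.pi / 2)) * (Fintype.card S : ℝ)) := by
  -- the decomposition
  set A : Matrix (Fin m) (Fin m) ℝ := fun a b => (Z a b : ℝ) with hA
  have hpsd : A.PosSemidef := by
    refine Matrix.PosSemidef.of_dotProduct_mulVec_nonneg ?_ ?_
    · ext a b
      simp [hA, hs b a]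
    · intro x
      have h1 := psd_real m Z h (fun a => if h : a < m then x ⟨a, h⟩ else 0)
      have e : star x ⬝ᵥ (A.mulVec x) = ∑ a ∈ range m, ∑ b ∈ range m, (Z a b : ℝ) *
          ((fun a => if h : a < m then x ⟨a, h⟩ else 0) a *
            (fun a => if h : a < m then x ⟨a, h⟩ else 0) b) := by
        rw [← Fin.sum_univ_eq_sum_range (fun a => ∑ b ∈ range m, (Z a b : ℝ) *
          ((fun a => if h : a < m then x ⟨a, h⟩ else 0) a *
            (fun a => if h : a < m then x ⟨a, h⟩ else 0) b)) m]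
        simp only [dotProduct, Matrix.mulVec, Pi.star_apply, star_trivial]
        refine sum_congr rfl fun a _ => ?_
        rw [← Fin.sum_univ_eq_sum_range (fun b => (Z a b : ℝ) *
          ((fun a => if h : a < m then x ⟨a, h⟩ else 0) a.1 *
            (fun a => if h : a < m then x ⟨a, h⟩ else 0) b)) m, mul_sum]
        refine sum_congr rfl fun b _ => ?_
        simp only [a.2, b.2, dif_pos, Fin.eta, hA]
        ring
      rw [e]
      exact h1
  obtain ⟨K, B, hB⟩ := Matrix.posSemidef_iff_eq_sum_vecMulVec.mp hpsd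
  have hZ : ∀ a b : Fin m, (Z a b : ℝ) = ∑ k, B k a * B k b := by
    intro a b
    have := congrFun (congrFun hB a) b
    simp only [hA] at this
    rw [this, Matrix.sum_apply]
    refine sum_congr rfl fun k _ => ?_
    simp [Matrix.vecMulVec_apply]
  -- the bound of the entries
  obtain ⟨β, hβ0, hβ⟩ : ∃ β : ℝ, 0 < β ∧ ∀ k a, |B k a| ≤ β := by
    refine ⟨1 + ∑ k, ∑ a, |B k a|, by positivity, fun k a => ?_⟩
    have h1 : |B k a| ≤ ∑ a, |B k a| :=
      single_le_sum (f := fun a => |B k a|) (fun _ _ => abs_nonneg _) (mem_univ a)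
    have h2 : ∑ a, |B k a| ≤ ∑ k, ∑ a, |B k a| :=
      single_le_sum (f := fun k => ∑ a, |B k a|)
        (fun _ _ => sum_nonneg fun _ _ => abs_nonneg _) (mem_univ k)
    linarith
  refine ⟨K * β ^ 2, by positivity, ?_⟩
  intro S η hS hη τ
  set f : Fin K → S → ℝ := fun k u => if h : τ u < m then B k ⟨τ u, h⟩ / β else 0 with hf
  have hf1 : ∀ k u, |f k u| ≤ 1 := by
    intro k u
    simp only [hf]
    split_ifs with h1
    · rw [abs_div, abs_of_pos hβ0, div_le_one hβ0]
      exact hβ _ _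
    · simp
  have e1 : ∀ u v, (Z (τ u) (τ v) : ℝ) = β ^ 2 * ∑ k, f k u * f k v := by
    intro u v
    by_cases h1 : τ u < m ∧ τ v < m
    · have := hZ ⟨τ u, h1.1⟩ ⟨τ v, h1.2⟩
      simp only at this
      rw [this, mul_sum]
      refine sum_congr rfl fun k _ => ?_
      simp only [hf]
      rw [dif_pos h1.1, dif_pos h1.2]
      field_simp
    · rw [h0 _ _ h1]
      symm
      rw [Int.cast_zero, mul_eq_zero]
      right
      refine sum_eq_zero fun k _ => ?_
      simp only [hf]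
      by_cases h2 : τ u < m
      · have h3 : ¬ τ v < m := fun h3 => h1 ⟨h2, h3⟩
        rw [dif_neg h3, mul_zero]
      · rw [dif_neg h2, zero_mul]
  have e2 : ∑ u, ∑ v, (Z (τ u) (τ v) : ℝ) * (∑ t, Nf S u v t -
      3 * dens (Set.Ici (Real.pi / 2)) * (Fintype.card S : ℝ)) =
      β ^ 2 * ∑ k, (∑ u, ∑ v, (∑ t, Nf S u v t) * (f k u * f k v) -
        3 * dens (Set.Ici (Real.pi / 2)) * (Fintype.card S : ℝ) * (∑ x, f k x) ^ 2) := by
    have e3 : ∀ k, 3 * dens (Set.Ici (Real.pi / 2)) * (Fintype.card S : ℝ) * (∑ x, f k x) ^ 2 =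
        ∑ u, ∑ v, 3 * dens (Set.Ici (Real.pi / 2)) * (Fintype.card S : ℝ) * (f k u * f k v) := by
      intro k
      rw [sq, sum_mul_sum, mul_sum]
      exact sum_congr rfl fun u _ => by rw [mul_sum]
    have e4 : ∀ k, (∑ u, ∑ v, (∑ t, Nf S u v t) * (f k u * f k v) -
        3 * dens (Set.Ici (Real.pi / 2)) * (Fintype.card S : ℝ) * (∑ x, f k x) ^ 2) =
        ∑ u, ∑ v, (f k u * f k v) * (∑ t, Nf S u v t -
          3 * dens (Set.Ici (Real.pi / 2)) * (Fintype.card S : ℝ)) := by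
      intro k
      rw [e3, ← sum_sub_distrib]
      refine sum_congr rfl fun u _ => ?_
      rw [← sum_sub_distrib]
      exact sum_congr rfl fun v _ => by ring
    simp only [e4]
    have e5 : ∀ u v : S, (Z (τ u) (τ v) : ℝ) * (∑ t, Nf S u v t -
        3 * dens (Set.Ici (Real.pi / 2)) * (Fintype.card S : ℝ)) =
        ∑ k, β ^ 2 * ((f k u * f k v) * (∑ t, Nf S u v t -
          3 * dens (Set.Ici (Real.pi / 2)) * (Fintype.card S : ℝ))) := by
      intro u v
      rw [e1, mul_assoc, sum_mul, mul_sum]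
    have e6 : ∀ u : S, ∑ v, (Z (τ u) (τ v) : ℝ) * (∑ t, Nf S u v t -
        3 * dens (Set.Ici (Real.pi / 2)) * (Fintype.card S : ℝ)) =
        ∑ k, ∑ v, β ^ 2 * ((f k u * f k v) * (∑ t, Nf S u v t -
          3 * dens (Set.Ici (Real.pi / 2)) * (Fintype.card S : ℝ))) := by
      intro u
      rw [sum_congr rfl fun v _ => e5 u v, sum_comm]
    rw [sum_congr rfl fun u _ => e6 u, sum_comm, mul_sum]
    refine sum_congr rfl fun k _ => ?_
    rw [mul_sum]
    exact sum_congr rfl fun u _ => by rw [mul_sum]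
  rw [e2]
  have h6 : ∑ _k : Fin K, -(η * (Fintype.card S : ℝ) ^ 3) ≤
      ∑ k, (∑ u, ∑ v, (∑ t, Nf S u v t) * (f k u * f k v) -
        3 * dens (Set.Ici (Real.pi / 2)) * (Fintype.card S : ℝ) * (∑ x, f k x) ^ 2) := by
    refine sum_le_sum fun k _ => ?_
    have := hS.sec (f k) (hf1 k)
    linarith
  rw [sum_const, card_univ, Fintype.card_fin, nsmul_eq_mul] at h6
  have h7 := mul_le_mul_of_nonneg_left h6 (sq_nonneg β)
  refine le_trans (le_of_eq ?_) h7
  ring

end Pool.Agent.AKG
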