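import Pool.Agent.AKG.Geo4

set_option autoImplicit false

/-!
# The possible states of four points: orientations and non-acute angles

The state of a triple `(a, b, c)` is a number below eight: four if `(a, b, c)` is
counterclockwise, plus one, two or three if the angle at `a`, `b` or `c` is not acute.
The states of the triples `abc, abd, acd, bcd` of four points are coded in base eight.
-/

namespace Pool.Agent.AKG

open Pool.Agent.AK

/-- orientations of all ordered triples from those of the four increasing triples
(index: the missing point) -/
def Od (o : Fin 4 → Bool) : Fin 4 → Fin 4 → Fin 4 → Bool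
  | 0, 1, 2 => o 3
  | 0, 2, 1 => !o 3
  | 1, 0, 2 => !o 3
  | 1, 2, 0 => o 3
  | 2, 0, 1 => o 3
  | 2, 1, 0 => !o 3
  | 0, 1, 3 => o 2
  | 0, 3, 1 => !o 2
  | 1, 0, 3 => !o 2
  | 1, 3, 0 => o 2
  | 3, 0, 1 => o 2
  | 3, 1, 0 => !o 2
  | 0, 2, 3 => o 1
  | 0, 3, 2 => !o 1
  | 2, 0, 3 => !o 1
  | 2, 3, 0 => o 1
  | 3, 0, 2 => o 1
  | 3, 2, 0 => !o 1
  | 1, 2, 3 => o 0
  | 1, 3, 2 => !o 0
  | 2, 1, 3 => !o 0
  | 2, 3, 1 => o 0
  | 3, 1, 2 => o 0
  | 3, 2, 1 => !o 0
  | _, _, _ => false

/-- non-acute angles (first argument: vertex) from the position (1, 2, 3) of the non-acute vertex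
in the four increasing triples (index: the missing point), `0` if there is none -/
def Wd (n : Fin 4 → ℕ) : Fin 4 → Fin 4 → Fin 4 → Bool
  | 0, 1, 2 => n 3 == 1
  | 0, 2, 1 => n 3 == 1
  | 1, 0, 2 => n 3 == 2
  | 1, 2, 0 => n 3 == 2
  | 2, 0, 1 => n 3 == 3
  | 2, 1, 0 => n 3 == 3
  | 0, 1, 3 => n 2 == 1
  | 0, 3, 1 => n 2 == 1
  | 1, 0, 3 => n 2 == 2
  | 1, 3, 0 => n 2 == 2
  | 3, 0, 1 => n 2 == 3
  | 3, 1, 0 => n 2 == 3
  | 0, 2, 3 => n 1 == 1
  | 0, 3, 2 => n 1 == 1
  | 2, 0, 3 => n 1 == 2
  | 2, 3, 0 => n 1 == 2
  | 3, 0, 2 => n 1 == 3
  | 3, 2, 0 => n 1 == 3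
  | 1, 2, 3 => n 0 == 1
  | 1, 3, 2 => n 0 == 1
  | 2, 1, 3 => n 0 == 2
  | 2, 3, 1 => n 0 == 2
  | 3, 1, 2 => n 0 == 3
  | 3, 2, 1 => n 0 == 3
  | _, _, _ => false

/-- the rules for a vertex `v` and three other points -/
def rule1 (O W : Fin 4 → Fin 4 → Fin 4 → Bool) (v p q w : Fin 4) : Bool :=
  (!(O v p q && O v q w && O v p w) ||
    ((!(W v p q || W v q w) || W v p w) && !(W v p q && W v q w))) &&
  (!(O v p q && O v q w && O v w p) ||
    ((W v p q || W v q w) && (!(W w p q) || W v p q)))

/-- the rules for a convex quadrilateral (`r`: rectangles are allowed) -/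
def rule2 (r : Bool) (O W : Fin 4 → Fin 4 → Fin 4 → Bool) (a b c d : Fin 4) : Bool :=
  !(O a b c && O b c d && O c d a && O d a b) ||
    ((W a d b || W b a c || W c b d || W d c a) &&
      (r || !(W a d b && W b a c && W c b d && W d c a)))

/-- the orders of four points -/
def perms : List (Fin 4 × Fin 4 × Fin 4 × Fin 4) :=
  [(0, 1, 2, 3), (0, 1, 3, 2), (0, 2, 1, 3), (0, 2, 3, 1),
   (0, 3, 1, 2), (0, 3, 2, 1), (1, 0, 2, 3), (1, 0, 3, 2),
   (1, 2, 0, 3), (1, 2, 3, 0), (1, 3, 0, 2), (1, 3, 2, 0),
   (2, 0, 1, 3), (2, 0, 3, 1), (2, 1, 0, 3), (2, 1, 3, 0),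
   (2, 3, 0, 1), (2, 3, 1, 0), (3, 0, 1, 2), (3, 0, 2, 1),
   (3, 1, 0, 2), (3, 1, 2, 0), (3, 2, 0, 1), (3, 2, 1, 0)]

/-- all rules -/
def rules (r : Bool) (O W : Fin 4 → Fin 4 → Fin 4 → Bool) : Bool :=
  !(O 0 1 2 && !(O 0 1 3) && O 0 2 3 && !(O 1 2 3)) &&
  !(!(O 0 1 2) && O 0 1 3 && !(O 0 2 3) && O 1 2 3) &&
  perms.all fun P => rule1 O W P.1 P.2.1 P.2.2.1 P.2.2.2 && rule2 r O W P.1 P.2.1 P.2.2.1 P.2.2.2

/-- the digits of a code: `3` is the state of `012`, `2` of `013`, `1` of `023`, `0` of `123` -/
def dig (t : ℕ) (m : Fin 4) : ℕ := (t >>> (3 * m.1)) % 8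

/-- the codes allowed by the rules -/
def okc (r : Bool) (t : ℕ) : Bool :=
  rules r (Od fun m => 4 ≤ dig t m) (Wd fun m => dig t m % 4)

/-- the 476 possible codes as the binary digits of a number -/
def TAB : ℕ := 277622967221437507323036922359393949252936653662400667312271738903153202810213620338292577973206274152893592764147179353189049628975503838461419258511401930654998740513386889950823002746988563033369102318808255359008737875471960854324648283020676869852172483566339858039998662346550998955545884853663739229123769549105389843587098935215379451607781821028751748575114681061243529337340776124026584525236661589349818950009033214634147222036846181817262176357650807473614954324069701058021576114972878880951564256924154392458021619275671444151120949765710390087931094840502584210070106661432212069887588249721271985063485895141017191214708539059113485235946400827476058894852310794874194770993910162142751849203768777299794133692145648701028925750525170549478318439500680755927988479657534979323387547860179590354417142346357640892066464324623745927843760995352641266113014766861040380831120460134808672541195386562727722316084577786193975908934882106316056250250738968879962356539104795603632252452772735056908081143992176214315106445613937767880387482020086741914281956793442313156190432248959184359820131916680036758611887804905438279049415308015058227859023974442502606063534391229105151338774199068202617016768302965115439544532996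

/-- the 482 possible codes if rectangles are allowed -/
def TABr : ℕ := 277622967221437507323036922359393949252936653662400667312271738903153202810213620338292577977211744959905240605868694065059774944499581493899645923051222186307414283817129136391456016684043756498963278084749051981681153647923191533612856122039911236682722166468709101254994605387808429938840553699025537050136880105308016785851969717089283851077078730458993200007972843764018859551707325404700813867200015803665289921555560333836140520241636305201433930775609201403688014922880369013298660244728788958147733732787015807384709845679094086810250145599179758521307686526990864228189920212294157785689698036868034700764341813573803151585228188619012165855996352599618654005389234581855577869315092064155052152379873009850510841120591174633403304806562565456374635259703775825387382599442591569913914338002719879538669995767969061302178771552476000092019831616019967237321872844862893554456732088426425780927511060696760498923722452575416614376987923615979154712341786525013023986599252221075058176610579627898162675637626706641339108234460477185984439772417147588985578736171649330442481944590328105836578746969465385510511883056754751099180767124922183086756853327188582845048106516320585700170392673868299542411339715622065953346682884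

theorem okc_tab_0 : ((List.range 256).all fun t => okc false (0 + t) == TAB.testBit (0 + t)) =
    true := by
  decide +kernel

theorem okc_tab_1 : ((List.range 256).all fun t => okc false (256 + t) == TAB.testBit (256 + t)) =
    true := by
  decide +kernel

theorem okc_tab_2 : ((List.range 256).all fun t => okc false (512 + t) == TAB.testBit (512 + t)) =
    true := by
  decide +kernel

theorem okc_tab_3 : ((List.range 256).all fun t => okc false (768 + t) == TAB.testBit (768 + t)) =
    true := by
  decide +kernel

theorem okc_tab_4 : ((List.range 256).all fun t => okc false (1024 + t) == TAB.testBit (1024 + t)) =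
    true := by
  decide +kernel

theorem okc_tab_5 : ((List.range 256).all fun t => okc false (1280 + t) == TAB.testBit (1280 + t)) =
    true := by
  decide +kernel

theorem okc_tab_6 : ((List.range 256).all fun t => okc false (1536 + t) == TAB.testBit (1536 + t)) =
    true := by
  decide +kernel

theorem okc_tab_7 : ((List.range 256).all fun t => okc false (1792 + t) == TAB.testBit (1792 + t)) =
    true := by
  decide +kernel

theorem okc_tab_8 : ((List.range 256).all fun t => okc false (2048 + t) == TAB.testBit (2048 + t)) =
    true := by
  decide +kernel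

theorem okc_tab_9 : ((List.range 256).all fun t => okc false (2304 + t) == TAB.testBit (2304 + t)) =
    true := by
  decide +kernel

theorem okc_tab_10 : ((List.range 256).all fun t => okc false (2560 + t) == TAB.testBit (2560 + t)) =
    true := by
  decide +kernel

theorem okc_tab_11 : ((List.range 256).all fun t => okc false (2816 + t) == TAB.testBit (2816 + t)) =
    true := by
  decide +kernel

theorem okc_tab_12 : ((List.range 256).all fun t => okc false (3072 + t) == TAB.testBit (3072 + t)) =
    true := by
  decide +kernel

theorem okc_tab_13 : ((List.range 256).all fun t => okc false (3328 + t) == TAB.testBit (3328 + t)) =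
    true := by
  decide +kernel

theorem okc_tab_14 : ((List.range 256).all fun t => okc false (3584 + t) == TAB.testBit (3584 + t)) =
    true := by
  decide +kernel

theorem okc_tab_15 : ((List.range 256).all fun t => okc false (3840 + t) == TAB.testBit (3840 + t)) =
    true := by
  decide +kernel

theorem okc_tab : ((List.range 4096).all fun t => okc false t == TAB.testBit t) = true := by
  rw [List.all_eq_true]
  intro t ht
  have h1 : t < 4096 := List.mem_range.1 ht
  have h2 : t / 256 < 16 := by omega
  have h3 : t % 256 ∈ List.range 256 := List.mem_range.2 (Nat.mod_lt _ (by norm_num))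
  have h4 : 256 * (t / 256) + t % 256 = t := Nat.div_add_mod t 256
  rw [← h4]
  generalize t / 256 = q at *
  generalize t % 256 = r at *
  interval_cases q

  · exact List.all_eq_true.1 okc_tab_0 r h3
  · exact List.all_eq_true.1 okc_tab_1 r h3
  · exact List.all_eq_true.1 okc_tab_2 r h3
  · exact List.all_eq_true.1 okc_tab_3 r h3
  · exact List.all_eq_true.1 okc_tab_4 r h3
  · exact List.all_eq_true.1 okc_tab_5 r h3
  · exact List.all_eq_true.1 okc_tab_6 r h3
  · exact List.all_eq_true.1 okc_tab_7 r h3
  · exact List.all_eq_true.1 okc_tab_8 r h3
  · exact List.all_eq_true.1 okc_tab_9 r h3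
  · exact List.all_eq_true.1 okc_tab_10 r h3
  · exact List.all_eq_true.1 okc_tab_11 r h3
  · exact List.all_eq_true.1 okc_tab_12 r h3
  · exact List.all_eq_true.1 okc_tab_13 r h3
  · exact List.all_eq_true.1 okc_tab_14 r h3
  · exact List.all_eq_true.1 okc_tab_15 r h3

theorem okc_tabr_0 : ((List.range 256).all fun t => okc true (0 + t) == TABr.testBit (0 + t)) =
    true := by
  decide +kernel

theorem okc_tabr_1 : ((List.range 256).all fun t => okc true (256 + t) == TABr.testBit (256 + t)) =
    true := by
  decide +kernel

theorem okc_tabr_2 : ((List.range 256).all fun t => okc true (512 + t) == TABr.testBit (512 + t)) =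
    true := by
  decide +kernel

theorem okc_tabr_3 : ((List.range 256).all fun t => okc true (768 + t) == TABr.testBit (768 + t)) =
    true := by
  decide +kernel

theorem okc_tabr_4 : ((List.range 256).all fun t => okc true (1024 + t) == TABr.testBit (1024 + t)) =
    true := by
  decide +kernel

theorem okc_tabr_5 : ((List.range 256).all fun t => okc true (1280 + t) == TABr.testBit (1280 + t)) =
    true := by
  decide +kernel

theorem okc_tabr_6 : ((List.range 256).all fun t => okc true (1536 + t) == TABr.testBit (1536 + t)) =
    true := by
  decide +kernel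

theorem okc_tabr_7 : ((List.range 256).all fun t => okc true (1792 + t) == TABr.testBit (1792 + t)) =
    true := by
  decide +kernel

theorem okc_tabr_8 : ((List.range 256).all fun t => okc true (2048 + t) == TABr.testBit (2048 + t)) =
    true := by
  decide +kernel

theorem okc_tabr_9 : ((List.range 256).all fun t => okc true (2304 + t) == TABr.testBit (2304 + t)) =
    true := by
  decide +kernel

theorem okc_tabr_10 : ((List.range 256).all fun t => okc true (2560 + t) == TABr.testBit (2560 + t)) =
    true := by
  decide +kernel

theorem okc_tabr_11 : ((List.range 256).all fun t => okc true (2816 + t) == TABr.testBit (2816 + t)) =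
    true := by
  decide +kernel

theorem okc_tabr_12 : ((List.range 256).all fun t => okc true (3072 + t) == TABr.testBit (3072 + t)) =
    true := by
  decide +kernel

theorem okc_tabr_13 : ((List.range 256).all fun t => okc true (3328 + t) == TABr.testBit (3328 + t)) =
    true := by
  decide +kernel

theorem okc_tabr_14 : ((List.range 256).all fun t => okc true (3584 + t) == TABr.testBit (3584 + t)) =
    true := by
  decide +kernel

theorem okc_tabr_15 : ((List.range 256).all fun t => okc true (3840 + t) == TABr.testBit (3840 + t)) =
    true := by
  decide +kernel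

theorem okc_tabr : ((List.range 4096).all fun t => okc true t == TABr.testBit t) = true := by
  rw [List.all_eq_true]
  intro t ht
  have h1 : t < 4096 := List.mem_range.1 ht
  have h2 : t / 256 < 16 := by omega
  have h3 : t % 256 ∈ List.range 256 := List.mem_range.2 (Nat.mod_lt _ (by norm_num))
  have h4 : 256 * (t / 256) + t % 256 = t := Nat.div_add_mod t 256
  rw [← h4]
  generalize t / 256 = q at *
  generalize t % 256 = r at *
  interval_cases q

  · exact List.all_eq_true.1 okc_tabr_0 r h3
  · exact List.all_eq_true.1 okc_tabr_1 r h3
  · exact List.all_eq_true.1 okc_tabr_2 r h3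
  · exact List.all_eq_true.1 okc_tabr_3 r h3
  · exact List.all_eq_true.1 okc_tabr_4 r h3
  · exact List.all_eq_true.1 okc_tabr_5 r h3
  · exact List.all_eq_true.1 okc_tabr_6 r h3
  · exact List.all_eq_true.1 okc_tabr_7 r h3
  · exact List.all_eq_true.1 okc_tabr_8 r h3
  · exact List.all_eq_true.1 okc_tabr_9 r h3
  · exact List.all_eq_true.1 okc_tabr_10 r h3
  · exact List.all_eq_true.1 okc_tabr_11 r h3
  · exact List.all_eq_true.1 okc_tabr_12 r h3
  · exact List.all_eq_true.1 okc_tabr_13 r h3
  · exact List.all_eq_true.1 okc_tabr_14 r h3
  · exact List.all_eq_true.1 okc_tabr_15 r h3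

theorem okc_eq (t : ℕ) (ht : t < 4096) : okc false t = TAB.testBit t :=
  eq_of_beq (List.all_eq_true.1 okc_tab t (List.mem_range.2 ht))

theorem okc_eqr (t : ℕ) (ht : t < 4096) : okc true t = TABr.testBit t :=
  eq_of_beq (List.all_eq_true.1 okc_tabr t (List.mem_range.2 ht))

theorem perms_ne : ∀ Q ∈ perms, Q.1 ≠ Q.2.1 ∧ Q.1 ≠ Q.2.2.1 ∧ Q.1 ≠ Q.2.2.2 ∧ Q.2.1 ≠ Q.2.2.1 ∧
      Q.2.1 ≠ Q.2.2.2 ∧ Q.2.2.1 ≠ Q.2.2.2 := by
  decide +kernel

end Pool.Agent.AKG
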